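import Mathlib

/-!
# Reinforcing networks: definitions

The plane is `EuclideanSpace ℝ (Fin 2)`, `μH[1]` is the one-dimensional Hausdorff measure,
`μH[1].restrict S` is the measure `𝓗¹ ⌊ S`. A `SignedMeasure` is a finite signed Borel measure.
`FiniteMeasure Plane` carries the topology of weak convergence of finite measures. For measures
carried by the compact set `closure Ω` this is weak* convergence in duality with `C(closure Ω)`
(every continuous function on `closure Ω` extends to a bounded continuous function on the plane),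
and weak limits of such measures are again carried by `closure Ω`.
-/

open MeasureTheory Set Filter Topology
open scoped ContDiff ENNReal

namespace Pool.Agent.Lib.MP_3f57e5_an

/-- The Euclidean plane. -/
abbrev Plane : Type := EuclideanSpace ℝ (Fin 2)

/-- `u` is a test function on `Ω`: `u ∈ C_c^∞(Ω)`. -/
def IsTest (Ω : Set Plane) (u : Plane → ℝ) : Prop :=
  ContDiff ℝ ∞ u ∧ HasCompactSupport u ∧ tsupport u ⊆ Ω

/-- The functional
`½ ∫_Ω |∇u|² dx + (m/2) ∫_Ω |∇u|² dμ - ∫_Ω u df`, for a signed measure `f`. -/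
noncomputable def energyOf (Ω : Set Plane) (f : SignedMeasure Plane) (m : ℝ) (μ : Measure Plane)
    (u : Plane → ℝ) : ℝ :=
  (1 / 2) * (∫ x in Ω, ‖gradient u x‖ ^ 2) + (m / 2) * (∫ x in Ω, ‖gradient u x‖ ^ 2 ∂μ)
    - ∫ᵛ x in Ω, u x ∂<•f

/-- The energy `𝓔_f(μ) ∈ [-∞, 0]`: the infimum of `energyOf` over all test functions. -/
noncomputable def energy (Ω : Set Plane) (f : SignedMeasure Plane) (m : ℝ) (μ : Measure Plane) :
    EReal :=
  ⨅ (u : Plane → ℝ) (_ : IsTest Ω u), ((energyOf Ω f m μ u : ℝ) : EReal)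

/-- The class `𝓐_L` of networks: closed connected sets `S ⊆ Ω` with `𝓗¹(S) ≤ L`. -/
def networks (Ω : Set Plane) (L : ℝ) : Set (Set Plane) :=
  {S | S ⊆ Ω ∧ IsClosed S ∧ IsConnected S ∧ μH[1] S ≤ ENNReal.ofReal L}

/-- The larger class in which closed is read as relatively closed in `Ω`. -/
def relNetworks (Ω : Set Plane) (L : ℝ) : Set (Set Plane) :=
  {S | S ⊆ Ω ∧ (∃ C : Set Plane, IsClosed C ∧ S = C ∩ Ω) ∧ IsConnected S ∧
    μH[1] S ≤ ENNReal.ofReal L}

/-- The class `𝓜_L`: the weak* closure of `{𝓗¹ ⌊ S : S ∈ 𝓐_L}`. -/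
def relaxed (Ω : Set Plane) (L : ℝ) : Set (FiniteMeasure Plane) :=
  closure {ν | ∃ S ∈ networks Ω L, (ν : Measure Plane) = μH[1].restrict S}

/-- Sanity check: a network is a relative network. -/
theorem networks_subset_relNetworks (Ω : Set Plane) (L : ℝ) :
    networks Ω L ⊆ relNetworks Ω L := fun S hS =>
  ⟨hS.1, ⟨S, hS.2.1, (inter_eq_left.2 hS.1).symm⟩, hS.2.2.1, hS.2.2.2⟩

end Pool.Agent.Lib.MP_3f57e5_an
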