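import Mathlib
import Pool.Agent.Lib.MP_3f57e5_an.Defs

/-!
# Reinforcing networks: elementary facts on the energy functional
-/

open MeasureTheory Set Filter Topology
open scoped ContDiff ENNReal

namespace Pool.Agent.Lib.MP_3f57e5_an

/-- shorthand for the gradient -/
noncomputable abbrev gr (u : Plane → ℝ) : Plane → Plane := gradient u

namespace IsTest

variable {Ω : Set Plane} {u v : Plane → ℝ}

theorem differentiable (hu : IsTest Ω u) : Differentiable ℝ u :=
  hu.1.differentiable (by simp)

theorem continuous (hu : IsTest Ω u) : Continuous u := hu.1.continuous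

theorem continuous_gradient (hu : IsTest Ω u) : Continuous (gradient u) := by
  have h : Continuous (fderiv ℝ u) := hu.1.continuous_fderiv (by simp)
  exact (InnerProductSpace.toDual ℝ Plane).symm.continuous.comp h

theorem hasCompactSupport_gradient (hu : IsTest Ω u) : HasCompactSupport (gradient u) := by
  have h : HasCompactSupport (fderiv ℝ u) := hu.2.1.fderiv ℝ
  refine h.mono ?_
  intro z hz
  rw [Function.mem_support] at hz ⊢
  intro h0
  apply hz
  rw [gradient, h0, map_zero]

theorem gradient_eq_zero (hu : IsTest Ω u) {z : Plane} (hz : z ∉ Ω) : gradient u z = 0 := by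
  have h1 : z ∉ tsupport (fderiv ℝ u) := fun h => hz (hu.2.2 (tsupport_fderiv_subset ℝ h))
  have h2 : fderiv ℝ u z = 0 := image_eq_zero_of_notMem_tsupport h1
  rw [gradient, h2, map_zero]

theorem eq_zero (hu : IsTest Ω u) {z : Plane} (hz : z ∉ Ω) : u z = 0 :=
  image_eq_zero_of_notMem_tsupport fun h => hz (hu.2.2 h)

theorem zero (Ω : Set Plane) : IsTest Ω 0 :=
  ⟨contDiff_const, HasCompactSupport.zero, by simp [tsupport]⟩

theorem add (hu : IsTest Ω u) (hv : IsTest Ω v) : IsTest Ω (u + v) :=
  ⟨hu.1.add hv.1, hu.2.1.add hv.2.1, (tsupport_add u v).trans (union_subset hu.2.2 hv.2.2)⟩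

theorem smul (hu : IsTest Ω u) (t : ℝ) : IsTest Ω (t • u) := by
  refine ⟨contDiff_const.smul hu.1, hu.2.1.smul_left (f := fun _ => t), ?_⟩
  refine (closure_mono ?_).trans hu.2.2
  intro z hz
  rw [Function.mem_support] at hz ⊢
  intro h0
  apply hz
  simp [h0]

theorem add_smul (hu : IsTest Ω u) (hv : IsTest Ω v) (t : ℝ) : IsTest Ω (u + t • v) :=
  hu.add (hv.smul t)

theorem mono {Ω' : Set Plane} (hu : IsTest Ω u) (h : Ω ⊆ Ω') : IsTest Ω' u :=
  ⟨hu.1, hu.2.1, hu.2.2.trans h⟩

theorem gradient_add_smul (hu : IsTest Ω u) (hv : IsTest Ω v) (t : ℝ) (z : Plane) :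
    gradient (u + t • v) z = gradient u z + t • gradient v z := by
  have h1 : fderiv ℝ (u + t • v) z = fderiv ℝ u z + t • fderiv ℝ v z := by
    rw [fderiv_add (hu.differentiable z) ((hv.differentiable z).const_smul t),
      fderiv_const_smul (hv.differentiable z)]
  rw [gradient, h1, map_add, map_smul]
  rfl

/-- A continuous function vanishing outside the support of the gradient is integrable. -/
theorem integrable_of_continuous (_ : IsTest Ω u) {ν : Measure Plane} [IsFiniteMeasureOnCompacts ν]
    {g : Plane → ℝ} (hg : Continuous g) (hc : HasCompactSupport g) : Integrable g ν :=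
  hg.integrable_of_hasCompactSupport hc

theorem integrable_inner (hu : IsTest Ω u) (hv : IsTest Ω v) {ν : Measure Plane}
    [IsFiniteMeasureOnCompacts ν] :
    Integrable (fun z => inner ℝ (gradient u z) (gradient v z)) ν := by
  refine Continuous.integrable_of_hasCompactSupport
    (hu.continuous_gradient.inner hv.continuous_gradient) ?_
  refine hu.hasCompactSupport_gradient.mono ?_
  intro z hz
  rw [Function.mem_support] at hz ⊢
  intro h0
  apply hz
  rw [h0, inner_zero_left]

theorem integrable_sq (hu : IsTest Ω u) {ν : Measure Plane} [IsFiniteMeasureOnCompacts ν] :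
    Integrable (fun z => ‖gradient u z‖ ^ 2) ν := by
  have := hu.integrable_inner hu (ν := ν)
  refine this.congr (Eventually.of_forall fun z => ?_)
  exact real_inner_self_eq_norm_sq _

theorem integrable (hu : IsTest Ω u) {ν : Measure Plane} [IsFiniteMeasureOnCompacts ν] :
    Integrable u ν :=
  hu.continuous.integrable_of_hasCompactSupport hu.2.1

theorem setIntegral_sq (hu : IsTest Ω u) (ν : Measure Plane) :
    ∫ z in Ω, ‖gradient u z‖ ^ 2 ∂ν = ∫ z, ‖gradient u z‖ ^ 2 ∂ν := by
  apply setIntegral_eq_integral_of_forall_compl_eq_zero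
  intro z hz
  rw [hu.gradient_eq_zero hz]
  simp

end IsTest

/-- The Dirichlet integral with respect to a measure. -/
noncomputable def dir (ν : Measure Plane) (u : Plane → ℝ) : ℝ := ∫ z, ‖gradient u z‖ ^ 2 ∂ν

/-- The bilinear Dirichlet form with respect to a measure. -/
noncomputable def bil (ν : Measure Plane) (u v : Plane → ℝ) : ℝ :=
  ∫ z, inner ℝ (gradient u z) (gradient v z) ∂ν

theorem dir_nonneg (ν : Measure Plane) (u : Plane → ℝ) : 0 ≤ dir ν u :=
  integral_nonneg fun _ => by positivity

theorem dir_add_smul {Ω : Set Plane} {u v : Plane → ℝ} (hu : IsTest Ω u) (hv : IsTest Ω v)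
    (ν : Measure Plane) [IsFiniteMeasureOnCompacts ν] (t : ℝ) :
    dir ν (u + t • v) = dir ν u + 2 * t * bil ν u v + t ^ 2 * dir ν v := by
  have h : ∀ z, ‖gradient (u + t • v) z‖ ^ 2 = ‖gradient u z‖ ^ 2
      + 2 * t * inner ℝ (gradient u z) (gradient v z) + t ^ 2 * ‖gradient v z‖ ^ 2 := by
    intro z
    rw [hu.gradient_add_smul hv, @norm_add_sq_real, inner_smul_right, norm_smul, mul_pow,
      Real.norm_eq_abs, sq_abs]
    ring
  unfold dir bil
  simp_rw [h]
  rw [integral_add, integral_add, integral_const_mul, integral_const_mul]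
  · exact hu.integrable_sq
  · exact (hu.integrable_inner hv).const_mul _
  · exact hu.integrable_sq.add ((hu.integrable_inner hv).const_mul _)
  · exact hv.integrable_sq.const_mul _

/-- The load `α - δ_p`. -/
noncomputable def load (α : Measure Plane) [IsFiniteMeasure α] (p : Plane) :
    SignedMeasure Plane := α.toSignedMeasure - (Measure.dirac p).toSignedMeasure

theorem integral_load {Ω : Set Plane} (hΩ : MeasurableSet Ω) {u : Plane → ℝ} (hu : IsTest Ω u)
    (α : Measure Plane) [IsFiniteMeasure α] (p : Plane) :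
    ∫ᵛ x in Ω, u x ∂<•(load α p) = ∫ x, u x ∂α - u p := by
  have h1 : (load α p).restrict Ω
      = (α.restrict Ω).toSignedMeasure - ((Measure.dirac p).restrict Ω).toSignedMeasure := by
    rw [load, VectorMeasure.restrict_sub,
      Measure.toSignedMeasure_restrict_eq_restrict_toSignedMeasure _ _ hΩ,
      Measure.toSignedMeasure_restrict_eq_restrict_toSignedMeasure _ _ hΩ]
  rw [h1, VectorMeasure.integral_sub_vectorMeasure, VectorMeasure.integral_toSignedMeasure,
    VectorMeasure.integral_toSignedMeasure]
  · congr 1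
    · apply setIntegral_eq_integral_of_forall_compl_eq_zero
      intro z hz
      exact hu.eq_zero hz
    · rw [setIntegral_eq_integral_of_forall_compl_eq_zero, integral_dirac]
      intro z hz
      exact hu.eq_zero hz
  · rw [VectorMeasure.Integrable, Measure.variation_toSignedMeasure]
    exact hu.integrable
  · rw [VectorMeasure.Integrable, Measure.variation_toSignedMeasure]
    exact hu.integrable

/-- the energy functional for test functions, load `α - δ_p`. -/
theorem energyOf_eq {Ω : Set Plane} (hΩ : MeasurableSet Ω) {u : Plane → ℝ} (hu : IsTest Ω u)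
    (α : Measure Plane) [IsFiniteMeasure α] (p : Plane) (m : ℝ) (ν : Measure Plane) :
    energyOf Ω (load α p) m ν u
      = (1 / 2) * dir volume u + (m / 2) * dir ν u - (∫ x, u x ∂α - u p) := by
  rw [energyOf, integral_load hΩ hu, hu.setIntegral_sq, hu.setIntegral_sq]
  rfl

theorem energyOf_add_smul {Ω : Set Plane} (hΩ : MeasurableSet Ω) {u v : Plane → ℝ}
    (hu : IsTest Ω u) (hv : IsTest Ω v)
    (α : Measure Plane) [IsFiniteMeasure α] (p : Plane) (m : ℝ) (ν : Measure Plane)
    [IsFiniteMeasureOnCompacts ν] (t : ℝ) :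
    energyOf Ω (load α p) m ν (u + t • v) = energyOf Ω (load α p) m ν u
      + t * (bil volume u v + m * bil ν u v - (∫ x, v x ∂α - v p))
      + t ^ 2 * ((1 / 2) * dir volume v + (m / 2) * dir ν v) := by
  rw [energyOf_eq hΩ (hu.add_smul hv t), energyOf_eq hΩ hu, dir_add_smul hu hv, dir_add_smul hu hv]
  have h : ∫ x, (u + t • v) x ∂α = ∫ x, u x ∂α + t * ∫ x, v x ∂α := by
    rw [← integral_const_mul, ← integral_add hu.integrable (hv.integrable.const_mul t)]
    rfl
  rw [h]
  simp only [Pi.add_apply, Pi.smul_apply, smul_eq_mul]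
  ring

end Pool.Agent.Lib.MP_3f57e5_an
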