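import Mathlib
import Pool.Agent.Lib.MP_3f57e5_an.Basic

/-!
# Segments, coordinates and the one-dimensional Hausdorff measure
-/

open MeasureTheory Set Filter Topology
open scoped ContDiff ENNReal

namespace Pool.Agent.Lib.MP_3f57e5_an

/-- first basis vector -/
noncomputable def e0 : Plane := EuclideanSpace.single 0 1
/-- second basis vector -/
noncomputable def e1 : Plane := EuclideanSpace.single 1 1

@[simp] theorem e0_zero : e0 0 = 1 := by simp [e0]
@[simp] theorem e0_one : e0 1 = 0 := by simp [e0]
@[simp] theorem e1_zero : e1 0 = 0 := by simp [e1]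
@[simp] theorem e1_one : e1 1 = 1 := by simp [e1]
@[simp] theorem norm_e0 : ‖e0‖ = 1 := by simp [e0]
@[simp] theorem norm_e1 : ‖e1‖ = 1 := by simp [e1]

/-- the line through `q` with direction `v` -/
noncomputable def ray (q v : Plane) (x : ℝ) : Plane := q + x • v

theorem isometry_ray (q : Plane) {v : Plane} (hv : ‖v‖ = 1) : Isometry (ray q v) := by
  refine Isometry.of_dist_eq fun x y => ?_
  simp only [ray, dist_add_left]
  rw [dist_eq_norm, ← sub_smul, norm_smul, hv, mul_one, Real.dist_eq, Real.norm_eq_abs]

theorem continuous_ray (q v : Plane) : Continuous (ray q v) := by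
  unfold ray; fun_prop

/-- the segment `{q + x v : x ∈ [0,l]}` -/
noncomputable def seg (q v : Plane) (l : ℝ) : Set Plane := ray q v '' Icc 0 l

theorem isCompact_seg (q v : Plane) (l : ℝ) : IsCompact (seg q v l) :=
  isCompact_Icc.image (continuous_ray q v)

theorem measurableSet_seg (q v : Plane) (l : ℝ) : MeasurableSet (seg q v l) :=
  (isCompact_seg q v l).measurableSet

theorem restrict_seg (q : Plane) {v : Plane} (hv : ‖v‖ = 1) (l : ℝ) :
    (μH[1] : Measure Plane).restrict (seg q v l)
      = Measure.map (ray q v) (volume.restrict (Icc 0 l)) := by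
  have hi := isometry_ray q hv
  have hemb : MeasurableEmbedding (ray q v) := hi.isClosedEmbedding.measurableEmbedding
  have h1 : Measure.map (ray q v) (μH[1] : Measure ℝ) = μH[1].restrict (range (ray q v)) :=
    hi.map_hausdorffMeasure (Or.inl zero_le_one)
  rw [hausdorffMeasure_real] at h1
  have h2 : seg q v l ⊆ range (ray q v) := image_subset_range _ _
  rw [← Measure.restrict_restrict_of_subset h2, ← h1, hemb.restrict_map]
  congr 2
  exact preimage_image_eq _ hi.injective

theorem hausdorff_seg (q : Plane) {v : Plane} (hv : ‖v‖ = 1) (l : ℝ) :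
    (μH[1] : Measure Plane) (seg q v l) = ENNReal.ofReal l := by
  rw [← Measure.restrict_apply_univ, restrict_seg q hv, Measure.map_apply
    (continuous_ray q v).measurable MeasurableSet.univ]
  simp

theorem integral_seg (q : Plane) {v : Plane} (hv : ‖v‖ = 1) (l : ℝ) (g : Plane → ℝ) :
    ∫ z, g z ∂((μH[1] : Measure Plane).restrict (seg q v l))
      = ∫ x in Icc 0 l, g (ray q v x) := by
  have hemb : MeasurableEmbedding (ray q v) := (isometry_ray q hv).isClosedEmbedding.measurableEmbedding
  rw [restrict_seg q hv, hemb.integral_map]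

/-- the first coordinate relative to `p` -/
noncomputable def xc (p : Plane) (z : Plane) : ℝ := z 0 - p 0

theorem continuous_xc (p : Plane) : Continuous (xc p) := by
  unfold xc; fun_prop

theorem contDiff_xc (p : Plane) : ContDiff ℝ ∞ (xc p) := by
  unfold xc; fun_prop

@[simp] theorem xc_ray (p : Plane) (x : ℝ) : xc p (ray p e0 x) = x := by
  simp [xc, ray]

theorem ray_xc {p : Plane} {l : ℝ} {z : Plane} (hz : z ∈ seg p e0 l) :
    ray p e0 (xc p z) = z := by
  obtain ⟨x, _, rfl⟩ := hz
  rw [xc_ray]

theorem lipschitz_xc (p : Plane) : LipschitzWith 1 (xc p) := by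
  refine LipschitzWith.of_dist_le_mul fun z w => ?_
  have h := EuclideanSpace.norm_eq (z - w)
  have h1 : |(z - w) 0| ≤ ‖z - w‖ := by
    have := PiLp.norm_apply_le (z - w) 0
    simpa using this
  rw [NNReal.coe_one, one_mul, Real.dist_eq, dist_eq_norm]
  have h2 : xc p z - xc p w = (z - w) 0 := by simp [xc]
  rw [h2]
  exact h1

/-- The projection does not increase the Hausdorff measure. -/
theorem volume_proj_le (p : Plane) (T : Set Plane) {B : Set ℝ} :
    volume (xc p '' T ∩ B) ≤ (μH[1] : Measure Plane) (T ∩ xc p ⁻¹' B) := by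
  have h1 : xc p '' T ∩ B = xc p '' (T ∩ xc p ⁻¹' B) := (image_inter_preimage _ _ _).symm
  rw [h1]
  have h2 := (lipschitz_xc p).hausdorffMeasure_image_le (d := 1) zero_le_one (T ∩ xc p ⁻¹' B)
  rw [hausdorffMeasure_real] at h2
  simpa using h2

end Pool.Agent.Lib.MP_3f57e5_an
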