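import Mathlib
import Pool.Agent.Lib.MP_3f57e5_an.Geom

/-!
# Analytic tools: Fubini inequality, smooth approximation, Cauchy-Schwarz
-/

open MeasureTheory Set Filter Topology
open scoped ContDiff ENNReal

namespace Pool.Agent.Lib.MP_3f57e5_an

/-- For a bounded set, the projection of Lebesgue measure is bounded by a multiple of Lebesgue
measure on the line. -/
theorem map_volume_le (p : Plane) {Ω : Set Plane} (hb : Bornology.IsBounded Ω) :
    ∃ D : ℝ, 0 ≤ D ∧ Measure.map (xc p) ((volume : Measure Plane).restrict Ω)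
      ≤ ENNReal.ofReal D • volume := by
  obtain ⟨R, hR⟩ := hb.subset_closedBall 0
  refine ⟨2 * max R 0, by positivity, ?_⟩
  set R' := max R 0 with hR'
  rw [Measure.le_iff]
  intro B hB
  rw [Measure.map_apply (continuous_xc p).measurable hB, Measure.smul_apply, smul_eq_mul,
    Measure.restrict_apply ((continuous_xc p).measurable hB)]
  have hsub : xc p ⁻¹' B ∩ Ω ⊆ (MeasurableEquiv.toLp 2 (Fin 2 → ℝ)).symm ⁻¹'
      (Set.univ.pi ![(fun x => x - p 0) ⁻¹' B, Icc (-R') R']) := by
    rintro z ⟨hz1, hz2⟩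
    rw [mem_preimage, mem_univ_pi]
    intro i
    fin_cases i
    · exact hz1
    · have h1 := hR hz2
      rw [mem_closedBall_zero_iff] at h1
      have h2 : |z 1| ≤ ‖z‖ := by simpa using PiLp.norm_apply_le z 1
      have h3 : |z 1| ≤ R' := h2.trans (h1.trans (le_max_left _ _))
      exact abs_le.1 h3
  refine (measure_mono hsub).trans ?_
  have hmp := EuclideanSpace.volume_preserving_symm_measurableEquiv_toLp (Fin 2)
  have hms : MeasurableSet (Set.univ.pi ![(fun x : ℝ => x - p 0) ⁻¹' B, Icc (-R') R']) := by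
    apply MeasurableSet.univ_pi
    intro i
    fin_cases i
    · exact (measurable_id.sub_const _) hB
    · exact measurableSet_Icc
  rw [hmp.measure_preimage hms.nullMeasurableSet, volume_pi_pi, Fin.prod_univ_two]
  simp only [Matrix.cons_val_zero, Matrix.cons_val_one, Real.volume_Icc]
  have h4 : volume ((fun x : ℝ => x - p 0) ⁻¹' B) = volume B := by
    simp_rw [sub_eq_add_neg]
    exact measure_preimage_add_right volume _ _
  rw [h4, mul_comm]
  apply le_of_eq
  congr 2
  ring

/-- Cauchy-Schwarz. -/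
theorem abs_integral_mul_le {α : Type*} [MeasurableSpace α] {ν : Measure α} {f g : α → ℝ}
    (hf : MemLp f 2 ν) (hg : MemLp g 2 ν) :
    |∫ x, f x * g x ∂ν| ≤ √(∫ x, f x ^ 2 ∂ν) * √(∫ x, g x ^ 2 ∂ν) := by
  have h1 : |∫ x, f x * g x ∂ν| ≤ ∫ x, ‖f x‖ * ‖g x‖ ∂ν := by
    rw [← Real.norm_eq_abs]
    refine (norm_integral_le_integral_norm _).trans (le_of_eq ?_)
    simp_rw [norm_mul]
  refine h1.trans ?_
  have h2 := integral_mul_norm_le_Lp_mul_Lq (μ := ν) (f := f) (g := g) (p := 2) (q := 2)
    (Real.HolderConjugate.two_two) (by simpa using hf) (by simpa using hg)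
  refine h2.trans (le_of_eq ?_)
  rw [Real.sqrt_eq_rpow, Real.sqrt_eq_rpow]
  simp

/-- Smooth compactly supported functions are dense in `L²(ν)` for a locally finite measure `ν` on
the line. -/
theorem exists_smooth_approx {ν : Measure ℝ} [IsLocallyFiniteMeasure ν] {f : ℝ → ℝ}
    (hf : MemLp f 2 ν) {δ : ℝ} (hδ : 0 < δ) :
    ∃ h : ℝ → ℝ, ContDiff ℝ ∞ h ∧ HasCompactSupport h ∧ ∫ x, (h x - f x) ^ 2 ∂ν ≤ δ := by
  have hf' : MemLp f (ENNReal.ofReal 2) ν := by simpa using hf
  obtain ⟨g, hgc, hg, hgcont, hgm⟩ :=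
    hf'.exists_hasCompactSupport_integral_rpow_sub_le (p := 2) two_pos
      (show (0 : ℝ) < δ / 4 by positivity)
  have hgm' : MemLp g 2 ν := by simpa using hgm
  set K : Set ℝ := Metric.cthickening 1 (tsupport g) with hK
  have hKc : IsCompact K := hgc.isCompact.cthickening
  have hKfin : ν K < ⊤ := hKc.measure_lt_top
  set M : ℝ := (ν K).toReal with hM
  have hM0 : 0 ≤ M := ENNReal.toReal_nonneg
  set η : ℝ := √(δ / (4 * (M + 1))) with hη
  have hη0 : 0 < η := Real.sqrt_pos.2 (by positivity)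
  have hη2 : η ^ 2 * M ≤ δ / 4 := by
    rw [hη, Real.sq_sqrt (by positivity), div_mul_eq_mul_div, div_le_div_iff₀ (by positivity)
      (by positivity)]
    nlinarith
  have huc : UniformContinuous g := hgc.uniformContinuous_of_continuous hgcont
  obtain ⟨r, hr, hgr⟩ := Metric.uniformContinuous_iff.1 huc η hη0
  obtain ⟨h, hhs, hh⟩ := hgcont.exists_contDiff_dist_le_of_forall_mem_ball_dist_le
    (lt_min one_pos hr)
  have h1 : ∀ a, |h a - g a| ≤ η := by
    intro a
    have := hh a η (fun x hx => (hgr (lt_of_lt_of_le hx (min_le_right _ _))).le)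
    rwa [Real.dist_eq] at this
  have h2 : ∀ a, a ∉ K → h a = 0 := by
    intro a ha
    have hz : ∀ x ∈ Metric.ball a (min 1 r), g x = 0 := by
      intro x hx
      by_contra hx0
      apply ha
      rw [hK]
      refine Metric.mem_cthickening_of_dist_le a x 1 _ (subset_tsupport _ hx0) ?_
      rw [dist_comm]
      exact (lt_of_lt_of_le hx (min_le_left _ _)).le
    have ha0 : g a = 0 := hz a (Metric.mem_ball_self (lt_min one_pos hr))
    have := hh a 0 (fun x hx => by rw [hz x hx, ha0, dist_self])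
    rw [ha0] at this
    exact dist_le_zero.1 this
  have h3 : ∀ a, a ∉ K → g a = 0 := by
    intro a ha
    by_contra hx0
    exact ha (Metric.self_subset_cthickening _ (subset_tsupport _ hx0))
  have hhc : HasCompactSupport h := HasCompactSupport.intro hKc h2
  have hhm : MemLp h 2 ν := hhs.continuous.memLp_of_hasCompactSupport hhc
  refine ⟨h, hhs, hhc, ?_⟩
  have i1 : Integrable (fun x => (h x - g x) ^ 2) ν := (hhm.sub hgm').integrable_sq
  have i2 : Integrable (fun x => (f x - g x) ^ 2) ν := (hf.sub hgm').integrable_sq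
  have i3 : Integrable (fun x => (h x - f x) ^ 2) ν := (hhm.sub hf).integrable_sq
  have e1 : ∫ x, (h x - g x) ^ 2 ∂ν ≤ δ / 4 := by
    have : ∀ x, (h x - g x) ^ 2 ≤ K.indicator (fun _ => η ^ 2) x := by
      intro x
      by_cases hx : x ∈ K
      · rw [indicator_of_mem hx]
        rw [← sq_abs]
        exact pow_le_pow_left₀ (abs_nonneg _) (h1 x) 2
      · rw [indicator_of_notMem hx, h2 x hx, h3 x hx]
        simp
    calc ∫ x, (h x - g x) ^ 2 ∂ν ≤ ∫ x, K.indicator (fun _ => η ^ 2) x ∂ν := by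
          apply integral_mono i1 _ this
          exact (integrableOn_const hKfin.ne).integrable_indicator hKc.measurableSet
      _ = η ^ 2 * M := by
          rw [integral_indicator hKc.measurableSet, setIntegral_const, smul_eq_mul, mul_comm]
          rfl
      _ ≤ δ / 4 := hη2
  have e2 : ∫ x, (f x - g x) ^ 2 ∂ν ≤ δ / 4 := by
    refine le_trans (le_of_eq ?_) hg
    apply integral_congr_ae
    filter_upwards with x
    rw [Real.rpow_two, Real.norm_eq_abs, sq_abs]
  calc ∫ x, (h x - f x) ^ 2 ∂ν ≤ ∫ x, (2 * (h x - g x) ^ 2 + 2 * (f x - g x) ^ 2) ∂ν := by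
        apply integral_mono i3 ((i1.const_mul 2).add (i2.const_mul 2))
        intro x
        show (h x - f x) ^ 2 ≤ 2 * (h x - g x) ^ 2 + 2 * (f x - g x) ^ 2
        nlinarith [sq_nonneg (h x - g x + (f x - g x))]
    _ = 2 * ∫ x, (h x - g x) ^ 2 ∂ν + 2 * ∫ x, (f x - g x) ^ 2 ∂ν := by
        rw [integral_add (i1.const_mul 2) (i2.const_mul 2), integral_const_mul, integral_const_mul]
    _ ≤ δ := by linarith

end Pool.Agent.Lib.MP_3f57e5_an
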