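import Mathlib
import Pool.Agent.Lib.MP_3f57e5_an.Geom

/-!
# Points of the plane have zero capacity
-/

open MeasureTheory Set Filter Topology Metric
open scoped ContDiff ENNReal

namespace Pool.Agent.Lib.MP_3f57e5_an

section

variable (x0 : Plane) (ρ : ℝ) (hρ : 0 < ρ)

/-- the basic bump -/
noncomputable def bump : ContDiffBump x0 :=
  ⟨ρ / 3, ρ / 2, by positivity, by linarith⟩

/-- the rescaled bump -/
noncomputable def sb (j : ℕ) (z : Plane) : ℝ := bump x0 ρ hρ (x0 + (2:ℝ) ^ j • (z - x0))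

theorem sb_nonneg (j : ℕ) (z : Plane) : 0 ≤ sb x0 ρ hρ j z := (bump x0 ρ hρ).nonneg

theorem sb_eq_one {j : ℕ} {z : Plane} (hz : (2:ℝ) ^ j * dist z x0 ≤ ρ / 3) :
    sb x0 ρ hρ j z = 1 := by
  apply (bump x0 ρ hρ).one_of_mem_closedBall
  rw [mem_closedBall, dist_eq_norm, add_sub_cancel_left, norm_smul, ← dist_eq_norm]
  show ‖(2:ℝ) ^ j‖ * dist z x0 ≤ ρ / 3
  simpa using hz

theorem sb_eq_zero {j : ℕ} {z : Plane} (hz : ρ / 2 ≤ (2:ℝ) ^ j * dist z x0) :
    sb x0 ρ hρ j z = 0 := by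
  apply (bump x0 ρ hρ).zero_of_le_dist
  rw [dist_eq_norm, add_sub_cancel_left, norm_smul, ← dist_eq_norm]
  show ρ / 2 ≤ ‖(2:ℝ) ^ j‖ * dist z x0
  simpa using hz

theorem contDiff_sb (j : ℕ) : ContDiff ℝ ∞ (sb x0 ρ hρ j) := by
  have h : ContDiff ℝ ∞ fun z : Plane => x0 + (2:ℝ) ^ j • (z - x0) := by fun_prop
  exact (bump x0 ρ hρ).contDiff.comp h

theorem tsupport_sb (j : ℕ) : tsupport (sb x0 ρ hρ j) ⊆ {z | (2:ℝ) ^ j * dist z x0 ≤ ρ / 2} := by
  apply closure_minimal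
  · intro z hz
    rw [mem_ofPred_eq]
    by_contra hcon
    push Not at hcon
    exact hz (sb_eq_zero x0 ρ hρ hcon.le)
  · exact isClosed_le (by fun_prop) continuous_const

theorem isTest_sb (j : ℕ) : IsTest (ball x0 ρ) (sb x0 ρ hρ j) := by
  have hsub : tsupport (sb x0 ρ hρ j) ⊆ closedBall x0 (ρ / 2) := by
    intro z hz
    have h1 : (2:ℝ) ^ j * dist z x0 ≤ ρ / 2 := tsupport_sb x0 ρ hρ j hz
    have h2 : (1:ℝ) ≤ 2 ^ j := one_le_pow₀ (by norm_num)
    have h3 : 0 ≤ dist z x0 := dist_nonneg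
    rw [mem_closedBall]
    nlinarith
  refine ⟨contDiff_sb x0 ρ hρ j, ?_, hsub.trans (closedBall_subset_ball (by linarith))⟩
  exact (isCompact_closedBall x0 (ρ / 2)).of_isClosed_subset (isClosed_tsupport _) hsub

theorem gradient_sb (j : ℕ) (z : Plane) :
    gradient (sb x0 ρ hρ j) z
      = (2:ℝ) ^ j • gradient (bump x0 ρ hρ) (x0 + (2:ℝ) ^ j • (z - x0)) := by
  apply (InnerProductSpace.toDual ℝ Plane).injective
  have h1 : HasFDerivAt (fun z : Plane => x0 + (2:ℝ) ^ j • (z - x0))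
      ((2:ℝ) ^ j • ContinuousLinearMap.id ℝ Plane) z :=
    (((hasFDerivAt_id z).sub_const x0).const_smul ((2:ℝ) ^ j)).const_add x0
  have h2 : DifferentiableAt ℝ (bump x0 ρ hρ) (x0 + (2:ℝ) ^ j • (z - x0)) :=
    ((bump x0 ρ hρ).contDiff (n := 1)).differentiable (by simp) _
  have h3 := h2.hasFDerivAt.comp z h1
  rw [toDual_gradient, map_smul, toDual_gradient]
  have h4 : fderiv ℝ (sb x0 ρ hρ j) z = _ := h3.fderiv
  rw [h4]
  ext v
  simp

theorem dir_sb (j : ℕ) : dir volume (sb x0 ρ hρ j) = dir volume (bump x0 ρ hρ) := by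
  unfold dir
  have h1 : ∀ z, ‖gradient (sb x0 ρ hρ j) z‖ ^ 2
      = ((2:ℝ) ^ j) ^ 2 * ‖gradient (bump x0 ρ hρ) (x0 + (2:ℝ) ^ j • (z - x0))‖ ^ 2 := by
    intro z
    rw [gradient_sb, norm_smul, mul_pow]
    simp
  simp_rw [h1]
  rw [integral_const_mul]
  have h2 : ∫ z, ‖gradient (bump x0 ρ hρ) (x0 + (2:ℝ) ^ j • (z - x0))‖ ^ 2
      = ∫ z, ‖gradient (bump x0 ρ hρ) (x0 + (2:ℝ) ^ j • z)‖ ^ 2 :=
    integral_sub_right_eq_self
      (fun z => ‖gradient (bump x0 ρ hρ) (x0 + (2:ℝ) ^ j • z)‖ ^ 2) x0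
  rw [h2]
  have h3 := Measure.integral_comp_smul (volume : Measure Plane)
    (fun z => ‖gradient (bump x0 ρ hρ) (x0 + z)‖ ^ 2) ((2:ℝ) ^ j)
  rw [h3]
  have h4 : ∫ z, ‖gradient (bump x0 ρ hρ) (x0 + z)‖ ^ 2
      = ∫ z, ‖gradient (bump x0 ρ hρ) z‖ ^ 2 :=
    integral_add_left_eq_self (fun z => ‖gradient (bump x0 ρ hρ) z‖ ^ 2) x0
  rw [h4]
  have h5 : Module.finrank ℝ Plane = 2 := by simp
  rw [h5, smul_eq_mul, abs_of_nonneg (by positivity), ← mul_assoc, mul_inv_cancel₀ (by positivity),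
    one_mul]

/-- the partial sums -/
noncomputable def psum : ℕ → Plane → ℝ
  | 0 => 0
  | k + 1 => psum k + (1:ℝ) • sb x0 ρ hρ k

theorem isTest_psum : ∀ k, IsTest (ball x0 ρ) (psum x0 ρ hρ k)
  | 0 => IsTest.zero _
  | k + 1 => (isTest_psum k).add_smul (isTest_sb x0 ρ hρ k) 1

theorem psum_nonneg : ∀ k z, 0 ≤ psum x0 ρ hρ k z
  | 0, z => le_refl _
  | k + 1, z => by
      simp only [psum, Pi.add_apply, one_smul]
      exact add_nonneg (psum_nonneg k z) (sb_nonneg x0 ρ hρ k z)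

theorem psum_eq : ∀ (k : ℕ) (z : Plane), (2:ℝ) ^ k * dist z x0 < 2 * (ρ / 3) →
    psum x0 ρ hρ k z = k
  | 0, z, _ => by simp [psum]
  | k + 1, z, hz => by
      rw [pow_succ] at hz
      have h1 : (2:ℝ) ^ k * dist z x0 < ρ / 3 := by linarith
      simp only [psum, Pi.add_apply, one_smul]
      rw [psum_eq k z (by linarith), sb_eq_one x0 ρ hρ h1.le]
      push_cast
      ring

theorem bil_psum_sb (k : ℕ) : bil volume (psum x0 ρ hρ k) (sb x0 ρ hρ k) = 0 := by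
  unfold bil
  have : ∀ z, inner ℝ (gradient (psum x0 ρ hρ k) z) (gradient (sb x0 ρ hρ k) z) = (0:ℝ) := by
    intro z
    by_cases hz : (2:ℝ) ^ k * dist z x0 < 2 * (ρ / 3)
    · have h1 : ∀ᶠ y in 𝓝 z, psum x0 ρ hρ k y = k := by
        have h2 : IsOpen {y : Plane | (2:ℝ) ^ k * dist y x0 < 2 * (ρ / 3)} :=
          isOpen_lt (by fun_prop) continuous_const
        filter_upwards [h2.mem_nhds hz] with y hy
        exact psum_eq x0 ρ hρ k y hy
      have h3 : gradient (psum x0 ρ hρ k) z = gradient (fun _ : Plane => (k:ℝ)) z :=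
        Filter.EventuallyEq.gradient_eq h1
      rw [h3, gradient_fun_const, inner_zero_left]
    · have h1 : z ∉ tsupport (sb x0 ρ hρ k) := by
        intro h
        have h2 : (2:ℝ) ^ k * dist z x0 ≤ ρ / 2 := tsupport_sb x0 ρ hρ k h
        push Not at hz
        linarith
      have h2 : z ∉ tsupport (fderiv ℝ (sb x0 ρ hρ k)) := fun h => h1 (tsupport_fderiv_subset ℝ h)
      have h3 : fderiv ℝ (sb x0 ρ hρ k) z = 0 := image_eq_zero_of_notMem_tsupport h2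
      rw [gradient, gradient, h3, map_zero, inner_zero_right]
  simp_rw [this]
  simp

theorem dir_psum : ∀ k, dir volume (psum x0 ρ hρ k) = k * dir volume (bump x0 ρ hρ)
  | 0 => by
      have : ∀ z, gradient (psum x0 ρ hρ 0) z = 0 := fun z => gradient_const z (0:ℝ)
      unfold dir
      simp_rw [this]
      simp
  | k + 1 => by
      rw [psum, dir_add_smul (isTest_psum x0 ρ hρ k) (isTest_sb x0 ρ hρ k), bil_psum_sb, dir_sb,
        dir_psum k]
      push_cast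
      ring

end

/-- Points have zero capacity. -/
theorem exists_small_energy (x0 : Plane) {ρ : ℝ} (hρ : 0 < ρ) {ε : ℝ} (hε : 0 < ε) :
    ∃ ζ : Plane → ℝ, IsTest (ball x0 ρ) ζ ∧ (∀ z, 0 ≤ ζ z) ∧ ζ x0 = 1 ∧ dir volume ζ ≤ ε := by
  set K := dir volume (bump x0 ρ hρ) with hK
  obtain ⟨k, hk⟩ := exists_nat_gt (K / ε)
  have hK0 : 0 ≤ K := dir_nonneg _ _
  have hk0 : (0:ℝ) < k := lt_of_le_of_lt (by positivity) hk
  refine ⟨(k:ℝ)⁻¹ • psum x0 ρ hρ k, (isTest_psum x0 ρ hρ k).smul _, ?_, ?_, ?_⟩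
  · intro z
    simp only [Pi.smul_apply, smul_eq_mul]
    exact mul_nonneg (by positivity) (psum_nonneg x0 ρ hρ k z)
  · simp only [Pi.smul_apply, smul_eq_mul]
    rw [psum_eq x0 ρ hρ k x0 (by simp [hρ])]
    exact inv_mul_cancel₀ hk0.ne'
  · have h1 : dir volume ((k:ℝ)⁻¹ • psum x0 ρ hρ k)
        = ((k:ℝ)⁻¹) ^ 2 * dir volume (psum x0 ρ hρ k) := by
      have h2 := dir_add_smul (IsTest.zero (ball x0 ρ)) (isTest_psum x0 ρ hρ k) volume (k:ℝ)⁻¹
      have h3 : ∀ z, gradient (0 : Plane → ℝ) z = 0 := fun z => gradient_const z (0:ℝ)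
      have h4 : dir volume (0 : Plane → ℝ) = 0 := by
        unfold dir
        simp_rw [h3]
        simp
      have h5 : bil volume (0 : Plane → ℝ) (psum x0 ρ hρ k) = 0 := by
        unfold bil
        simp_rw [h3]
        simp
      rw [zero_add, h4, h5] at h2
      rw [h2]
      ring
    rw [h1, dir_psum, ← hK]
    rw [div_lt_iff₀ hε] at hk
    have : ((k:ℝ)⁻¹) ^ 2 * (k * K) = K / k := by field_simp
    rw [this, div_le_iff₀ hk0]
    linarith

end Pool.Agent.Lib.MP_3f57e5_an
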