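import Mathlib
import Pool.Agent.Lib.MP_3f57e5_an.Analysis

/-!
# The test functions `H(x₀ - p₀) χ`
-/

open MeasureTheory Set Filter Topology
open scoped ContDiff ENNReal

namespace Pool.Agent.Lib.MP_3f57e5_an

/-- the primitive of `h` vanishing at `0` -/
noncomputable def prim (h : ℝ → ℝ) (x : ℝ) : ℝ := ∫ s in (0:ℝ)..x, h s

theorem hasDerivAt_prim {h : ℝ → ℝ} (hh : Continuous h) (x : ℝ) : HasDerivAt (prim h) (h x) x :=
  intervalIntegral.integral_hasDerivAt_right (hh.intervalIntegrable _ _)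
    (hh.stronglyMeasurableAtFilter _ _) hh.continuousAt

theorem contDiff_prim {h : ℝ → ℝ} (hh : ContDiff ℝ ∞ h) : ContDiff ℝ ∞ (prim h) := by
  rw [contDiff_infty_iff_deriv]
  refine ⟨fun x => (hasDerivAt_prim hh.continuous x).differentiableAt, ?_⟩
  have : deriv (prim h) = h := by
    funext x
    exact (hasDerivAt_prim hh.continuous x).deriv
  rw [this]
  exact hh

theorem sq_prim_le {h : ℝ → ℝ} (hh : Continuous h) (hc : HasCompactSupport h) {x R : ℝ}
    (hx : |x| ≤ R) : prim h x ^ 2 ≤ R * ∫ s, h s ^ 2 := by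
  have h1 : |prim h x| = |∫ s in uIoc 0 x, h s| := by
    rw [prim, intervalIntegral.abs_intervalIntegral_eq]
  have hm : MemLp h 2 (volume.restrict (uIoc 0 x)) :=
    (hh.memLp_of_hasCompactSupport hc).restrict _
  have hfin : volume (uIoc 0 x) ≠ ⊤ := by
    rw [uIoc]; simp
  have hone : MemLp (fun _ : ℝ => (1 : ℝ)) 2 (volume.restrict (uIoc 0 x)) := by
    have : IsFiniteMeasure (volume.restrict (uIoc 0 x)) := ⟨by
      rw [Measure.restrict_apply_univ]; exact hfin.lt_top⟩
    exact memLp_const 1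
  have h2 := abs_integral_mul_le hone hm
  simp only [one_mul, one_pow] at h2
  have h3 : ∫ _ in uIoc 0 x, (1 : ℝ) = |x| := by
    rw [setIntegral_const]
    simp only [smul_eq_mul, mul_one, measureReal_def, uIoc, Real.volume_Ioc]
    rw [ENNReal.toReal_ofReal]
    · rcases le_total 0 x with h | h
      · simp [h, abs_of_nonneg h]
      · simp [h, abs_of_nonpos h]
    · simp
  have h4 : ∫ s in uIoc 0 x, h s ^ 2 ≤ ∫ s, h s ^ 2 :=
    setIntegral_le_integral (hh.memLp_of_hasCompactSupport hc).integrable_sq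
      (Eventually.of_forall fun _ => sq_nonneg _)
  have h5 : 0 ≤ ∫ s in uIoc 0 x, h s ^ 2 := integral_nonneg fun _ => sq_nonneg _
  calc prim h x ^ 2 = |prim h x| ^ 2 := (sq_abs _).symm
    _ ≤ (√(∫ _ in uIoc 0 x, (1 : ℝ)) * √(∫ s in uIoc 0 x, h s ^ 2)) ^ 2 := by
        rw [h1]
        exact pow_le_pow_left₀ (abs_nonneg _) h2 2
    _ = |x| * ∫ s in uIoc 0 x, h s ^ 2 := by
        rw [h3, mul_pow, Real.sq_sqrt (abs_nonneg _), Real.sq_sqrt h5]
    _ ≤ R * ∫ s, h s ^ 2 := by
        have := abs_nonneg x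
        exact mul_le_mul hx h4 h5 (this.trans hx)

/-- The test function `H(x₀ - p₀) χ`, `H' = h`. -/
noncomputable def cut (p : Plane) (h : ℝ → ℝ) (χ : Plane → ℝ) (z : Plane) : ℝ :=
  prim h (xc p z) * χ z

theorem isTest_cut {Ω : Set Plane} (p : Plane) {h : ℝ → ℝ} {χ : Plane → ℝ} (hh : ContDiff ℝ ∞ h)
    (hχ : IsTest Ω χ) : IsTest Ω (cut p h χ) := by
  refine ⟨((contDiff_prim hh).comp (contDiff_xc p)).mul hχ.1, ?_, ?_⟩
  · exact hχ.2.1.mul_left
  · refine (closure_mono ?_).trans hχ.2.2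
    intro z hz
    rw [Function.mem_support] at hz ⊢
    intro h0
    apply hz
    rw [cut, h0, mul_zero]

theorem fderiv_xc (p z v : Plane) : fderiv ℝ (xc p) z v = v 0 := by
  have h : HasFDerivAt (xc p) (EuclideanSpace.proj (0 : Fin 2) : Plane →L[ℝ] ℝ) z := by
    have := (EuclideanSpace.proj (0 : Fin 2) : Plane →L[ℝ] ℝ).hasFDerivAt (x := z)
    exact this.sub_const (p 0)
  rw [h.fderiv]
  rfl

theorem inner_e0_left (v : Plane) : inner ℝ e0 v = v 0 := by
  simp [e0, EuclideanSpace.inner_single_left]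

theorem inner_e0_right (v : Plane) : inner ℝ v e0 = v 0 := by
  rw [real_inner_comm, inner_e0_left]

theorem gradient_cut {Ω : Set Plane} (p : Plane) {h : ℝ → ℝ} {χ : Plane → ℝ}
    (hh : ContDiff ℝ ∞ h) (hχ : IsTest Ω χ) (z : Plane) :
    gradient (cut p h χ) z = (h (xc p z) * χ z) • e0 + prim h (xc p z) • gradient χ z := by
  have d1 : DifferentiableAt ℝ (xc p) z := ((contDiff_xc p).differentiable (by simp)) z
  have d2 : HasFDerivAt (fun z => prim h (xc p z)) ((h (xc p z)) • fderiv ℝ (xc p) z) z :=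
    (hasDerivAt_prim hh.continuous (xc p z)).comp_hasFDerivAt z d1.hasFDerivAt
  have d3 : HasFDerivAt (cut p h χ) (prim h (xc p z) • fderiv ℝ χ z
      + χ z • ((h (xc p z)) • fderiv ℝ (xc p) z)) z :=
    d2.mul (hχ.differentiable z).hasFDerivAt
  apply (InnerProductSpace.toDual ℝ Plane).injective
  rw [toDual_gradient, d3.fderiv]
  ext v
  simp only [add_apply, smul_apply, smul_eq_mul, map_add,
    map_smul, InnerProductSpace.toDual_apply_apply]
  rw [fderiv_xc, inner_gradient_left, inner_e0_left]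
  ring

end Pool.Agent.Lib.MP_3f57e5_an
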