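import Mathlib
import Pool.Agent.Lib.MP_3f57e5_an.Cut

/-!
# The main estimate for one network containing the segment
-/

open MeasureTheory Set Filter Topology
open scoped ContDiff ENNReal

namespace Pool.Agent.Lib.MP_3f57e5_an

/-- The fixed geometric data. -/
structure Cfg where
  /-- the domain -/
  Ω : Set Plane
  isOpen : IsOpen Ω
  bdd : Bornology.IsBounded Ω
  /-- left end point -/
  p : Plane
  /-- length -/
  l : ℝ
  l_pos : 0 < l
  seg_sub : seg p e0 l ⊆ Ω
  /-- cut-off function -/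
  χ : Plane → ℝ
  test : IsTest Ω χ
  χ_one : ∀ z ∈ seg p e0 l, χ z = 1
  grad_χ : ∀ z ∈ seg p e0 l, gradient χ z = 0
  χ_le : ∀ z, |χ z| ≤ 1
  /-- bound for the gradient of the cut-off function -/
  B : ℝ
  grad_le : ∀ z, ‖gradient χ z‖ ≤ B
  /-- bound for the first coordinate on the domain -/
  R : ℝ
  R_nonneg : 0 ≤ R
  xc_le : ∀ z ∈ Ω, |xc p z| ≤ R
  /-- constant of the Fubini inequality -/
  D : ℝ
  D_nonneg : 0 ≤ D
  map_le : Measure.map (xc p) ((volume : Measure Plane).restrict Ω) ≤ ENNReal.ofReal D • volume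

namespace Cfg

variable (c : Cfg)

/-- the one dimensional Hausdorff measure on the part of `S` outside the segment -/
noncomputable def σ (S : Set Plane) : Measure Plane := (μH[1]).restrict (S \ seg c.p e0 c.l)

/-- derivative of `u` along the segment -/
noncomputable def w (u : Plane → ℝ) (x : ℝ) : ℝ := inner ℝ (gradient u (ray c.p e0 x)) e0

theorem continuous_w {u : Plane → ℝ} (hu : IsTest c.Ω u) : Continuous (c.w u) :=
  (hu.continuous_gradient.comp (continuous_ray _ _)).inner continuous_const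

theorem hasCompactSupport_w {u : Plane → ℝ} (hu : IsTest c.Ω u) : HasCompactSupport (c.w u) := by
  have h1 : HasCompactSupport (fun x => gradient u (ray c.p e0 x)) :=
    hu.hasCompactSupport_gradient.comp_isClosedEmbedding
      (isometry_ray c.p norm_e0).isClosedEmbedding
  refine h1.mono ?_
  intro x hx
  rw [Function.mem_support] at hx ⊢
  intro h0
  apply hx
  rw [w, h0, inner_zero_left]

/-- pointwise bound for the gradient of the test function -/
theorem norm_gradient_cut_sq_le {h : ℝ → ℝ} (hh : ContDiff ℝ ∞ h) (hc : HasCompactSupport h)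
    (z : Plane) :
    ‖gradient (cut c.p h c.χ) z‖ ^ 2
      ≤ 2 * h (xc c.p z) ^ 2 + 2 * (c.R * ∫ s, h s ^ 2) * c.B ^ 2 := by
  have hN : 0 ≤ ∫ s, h s ^ 2 := integral_nonneg fun _ => sq_nonneg _
  by_cases hz : z ∈ c.Ω
  · rw [gradient_cut c.p hh c.test z]
    have h1 : ‖(h (xc c.p z) * c.χ z) • e0‖ ≤ |h (xc c.p z)| := by
      rw [norm_smul, norm_e0, mul_one, Real.norm_eq_abs, abs_mul]
      exact mul_le_of_le_one_right (abs_nonneg _) (c.χ_le z)
    have h2 : ‖prim h (xc c.p z) • gradient c.χ z‖ ≤ |prim h (xc c.p z)| * c.B := by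
      rw [norm_smul, Real.norm_eq_abs]
      exact mul_le_mul_of_nonneg_left (c.grad_le z) (abs_nonneg _)
    have h3 := norm_add_le ((h (xc c.p z) * c.χ z) • e0) (prim h (xc c.p z) • gradient c.χ z)
    have h4 : prim h (xc c.p z) ^ 2 ≤ c.R * ∫ s, h s ^ 2 :=
      sq_prim_le hh.continuous hc (c.xc_le z hz)
    have h5 : ‖(h (xc c.p z) * c.χ z) • e0 + prim h (xc c.p z) • gradient c.χ z‖
        ≤ |h (xc c.p z)| + |prim h (xc c.p z)| * c.B := h3.trans (add_le_add h1 h2)
    have h6 := pow_le_pow_left₀ (norm_nonneg _) h5 2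
    refine h6.trans ?_
    have h7 : (|h (xc c.p z)| + |prim h (xc c.p z)| * c.B) ^ 2
        ≤ 2 * h (xc c.p z) ^ 2 + 2 * (prim h (xc c.p z) ^ 2 * c.B ^ 2) := by
      have e1 : |h (xc c.p z)| ^ 2 = h (xc c.p z) ^ 2 := sq_abs _
      have e2 : |prim h (xc c.p z)| ^ 2 = prim h (xc c.p z) ^ 2 := sq_abs _
      rw [← e1, ← e2]
      nlinarith [sq_nonneg (|h (xc c.p z)| - |prim h (xc c.p z)| * c.B)]
    refine h7.trans ?_
    have h8 := mul_le_mul_of_nonneg_right h4 (sq_nonneg c.B)
    linarith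
  · rw [(isTest_cut c.p hh c.test).gradient_eq_zero hz, norm_zero]
    have := c.R_nonneg
    have h0 : (0:ℝ) ^ 2 = 0 := by norm_num
    rw [h0]
    positivity

theorem dir_cut_le {h : ℝ → ℝ} (hh : ContDiff ℝ ∞ h) (hc : HasCompactSupport h)
    (ν : Measure Plane) [IsFiniteMeasure ν] :
    dir ν (cut c.p h c.χ) ≤ 2 * ∫ z, h (xc c.p z) ^ 2 ∂ν
      + 2 * (c.R * ∫ s, h s ^ 2) * c.B ^ 2 * ν.real univ := by
  have hi : Integrable (fun z => h (xc c.p z) ^ 2) ν := by
    obtain ⟨C, hC⟩ := hc.exists_bound_of_continuous hh.continuous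
    refine Integrable.of_bound ((hh.continuous.comp (continuous_xc c.p)).pow 2).aestronglyMeasurable
      (C ^ 2) (Eventually.of_forall fun z => ?_)
    rw [norm_pow]
    exact pow_le_pow_left₀ (norm_nonneg _) (hC _) 2
  calc dir ν (cut c.p h c.χ)
      ≤ ∫ z, (2 * h (xc c.p z) ^ 2 + 2 * (c.R * ∫ s, h s ^ 2) * c.B ^ 2) ∂ν := by
        apply integral_mono (isTest_cut c.p hh c.test).integrable_sq
          ((hi.const_mul 2).add (integrable_const _))
        intro z
        exact c.norm_gradient_cut_sq_le hh hc z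
    _ = _ := by
        rw [integral_add (hi.const_mul 2) (integrable_const _), integral_const_mul, integral_const,
          smul_eq_mul]
        ring

theorem integral_sq_restrict_le {h : ℝ → ℝ} (hh : Continuous h) (hc : HasCompactSupport h) :
    ∫ z in c.Ω, h (xc c.p z) ^ 2 ≤ c.D * ∫ s, h s ^ 2 := by
  have hint : Integrable (fun s => h s ^ 2) volume := (hh.memLp_of_hasCompactSupport hc).integrable_sq
  have h1 : ∫ z in c.Ω, h (xc c.p z) ^ 2
      = ∫ s, h s ^ 2 ∂(Measure.map (xc c.p) ((volume : Measure Plane).restrict c.Ω)) := by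
    have hm : AEStronglyMeasurable (fun s => h s ^ 2)
        (Measure.map (xc c.p) ((volume : Measure Plane).restrict c.Ω)) :=
      (hh.pow 2).aestronglyMeasurable
    rw [integral_map (continuous_xc c.p).aemeasurable hm]
  rw [h1]
  have hint' : Integrable (fun s => h s ^ 2) (ENNReal.ofReal c.D • volume) :=
    hint.smul_measure ENNReal.ofReal_ne_top
  calc _ ≤ ∫ s, h s ^ 2 ∂(ENNReal.ofReal c.D • volume) :=
        integral_mono_measure c.map_le (Eventually.of_forall fun _ => sq_nonneg _) hint'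
    _ = c.D * ∫ s, h s ^ 2 := by
        rw [integral_smul_measure, ENNReal.toReal_ofReal c.D_nonneg, smul_eq_mul]

theorem dir_volume_cut_le {h : ℝ → ℝ} (hh : ContDiff ℝ ∞ h) (hc : HasCompactSupport h) :
    dir volume (cut c.p h c.χ)
      ≤ (2 * c.D + 2 * c.R * c.B ^ 2 * (volume c.Ω).toReal) * ∫ s, h s ^ 2 := by
  have hfin : IsFiniteMeasure ((volume : Measure Plane).restrict c.Ω) := ⟨by
    rw [Measure.restrict_apply_univ]; exact c.bdd.measure_lt_top⟩
  have h1 : dir volume (cut c.p h c.χ) = dir (volume.restrict c.Ω) (cut c.p h c.χ) :=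
    ((isTest_cut c.p hh c.test).setIntegral_sq volume).symm
  rw [h1]
  refine (c.dir_cut_le hh hc _).trans ?_
  have h2 := c.integral_sq_restrict_le hh.continuous hc
  have h3 : ((volume : Measure Plane).restrict c.Ω).real univ = (volume c.Ω).toReal := by
    rw [measureReal_def, Measure.restrict_apply_univ]
  rw [h3]
  nlinarith

end Cfg

end Pool.Agent.Lib.MP_3f57e5_an
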