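import Mathlib
import Pool.Agent.Lib.MP_3f57e5_an.Estimate

/-!
# The main estimate for one network containing the segment, continued
-/

open MeasureTheory Set Filter Topology
open scoped ContDiff ENNReal

namespace Pool.Agent.Lib.MP_3f57e5_an

namespace Cfg

variable (c : Cfg)

/-- `∫ w(x₀-p₀)² dσ` -/
noncomputable def β (S : Set Plane) (u : Plane → ℝ) : ℝ := ∫ z, c.w u (xc c.p z) ^ 2 ∂(c.σ S)
/-- `∫ w²` on the segment -/
noncomputable def A (u : Plane → ℝ) : ℝ := ∫ x in Icc 0 c.l, c.w u x ^ 2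
/-- error term -/
noncomputable def ρ (S : Set Plane) (u : Plane → ℝ) : ℝ :=
  ∫ z, (inner ℝ (gradient u z) e0 * c.χ z - c.w u (xc c.p z)) ^ 2 ∂(c.σ S)
/-- error term -/
noncomputable def τ (S : Set Plane) (u : Plane → ℝ) : ℝ :=
  ∫ z, |inner ℝ (gradient u z) (gradient c.χ z)| ∂(c.σ S)

theorem isFiniteMeasure_σ {S : Set Plane} (hfin : (μH[1] : Measure Plane) S ≠ ⊤) :
    IsFiniteMeasure (c.σ S) :=
  ⟨by
    rw [σ, Measure.restrict_apply_univ]
    exact (measure_mono sdiff_subset).trans_lt hfin.lt_top⟩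

/-- measurable hull of the projection of the part of the network outside the segment -/
noncomputable def P (S : Set Plane) : Set ℝ :=
  toMeasurable volume (xc c.p '' (S \ seg c.p e0 c.l))

theorem measurableSet_P (S : Set Plane) : MeasurableSet (c.P S) := measurableSet_toMeasurable _ _

theorem restrict_P_le {S : Set Plane} (hfin : (μH[1] : Measure Plane) S ≠ ⊤) :
    (volume : Measure ℝ).restrict (c.P S) ≤ Measure.map (xc c.p) (c.σ S) := by
  rw [Measure.le_iff]
  intro B hB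
  have h0 : volume (xc c.p '' (S \ seg c.p e0 c.l)) ≠ ⊤ := by
    have h := volume_proj_le c.p (S \ seg c.p e0 c.l) (B := univ)
    rw [inter_univ, preimage_univ, inter_univ] at h
    exact (h.trans (measure_mono sdiff_subset)).trans_lt hfin.lt_top |>.ne
  rw [Measure.restrict_apply hB, Measure.map_apply (continuous_xc c.p).measurable hB, inter_comm,
    P, Measure.measure_toMeasurable_inter hB h0, σ,
    Measure.restrict_apply ((continuous_xc c.p).measurable hB)]
  rw [inter_comm (xc c.p ⁻¹' B)]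
  exact volume_proj_le c.p _

theorem ae_mem_P {S : Set Plane} (hS : MeasurableSet S) :
    ∀ᵐ z ∂(c.σ S), xc c.p z ∈ c.P S := by
  have hm : MeasurableSet (S \ seg c.p e0 c.l) := hS.diff (measurableSet_seg _ _ _)
  filter_upwards [ae_restrict_mem hm] with z hz
  exact subset_toMeasurable _ _ (mem_image_of_mem _ hz)

/-- the reference measure on the line -/
noncomputable def ν (S : Set Plane) : Measure ℝ := volume + Measure.map (xc c.p) (c.σ S)

/-- the target function -/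
noncomputable def tgt (S : Set Plane) (u : Plane → ℝ) (x : ℝ) : ℝ :=
  - (c.P S).indicator (c.w u) x

theorem isLocallyFiniteMeasure_ν {S : Set Plane} (hfin : (μH[1] : Measure Plane) S ≠ ⊤) :
    IsLocallyFiniteMeasure (c.ν S) := by
  have := c.isFiniteMeasure_σ hfin
  refine ⟨fun x => ?_⟩
  obtain ⟨s, hs, hs'⟩ := (volume : Measure ℝ).finiteAt_nhds x
  refine ⟨s, hs, ?_⟩
  rw [ν, Measure.add_apply]
  exact ENNReal.add_lt_top.2 ⟨hs', measure_lt_top _ _⟩

section

variable {S : Set Plane} {u : Plane → ℝ}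

theorem memLp_w (hu : IsTest c.Ω u) (ν : Measure ℝ) [IsFiniteMeasureOnCompacts ν] :
    MemLp (c.w u) 2 ν :=
  (c.continuous_w hu).memLp_of_hasCompactSupport (c.hasCompactSupport_w hu)

theorem memLp_tgt (hu : IsTest c.Ω u) (ν : Measure ℝ) [IsFiniteMeasureOnCompacts ν] :
    MemLp (c.tgt S u) 2 ν :=
  ((c.memLp_w hu ν).indicator (c.measurableSet_P S)).neg

theorem integral_map_xc (ν : Measure Plane) {g : ℝ → ℝ}
    (hg : AEStronglyMeasurable g (Measure.map (xc c.p) ν)) :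
    ∫ x, g x ∂(Measure.map (xc c.p) ν) = ∫ z, g (xc c.p z) ∂ν :=
  integral_map (continuous_xc c.p).aemeasurable hg

theorem integral_tgt_sq_volume_le (hu : IsTest c.Ω u) (hfin : (μH[1] : Measure Plane) S ≠ ⊤) :
    ∫ x, c.tgt S u x ^ 2 ≤ c.β S u := by
  have := c.isFiniteMeasure_σ hfin
  have h1 : ∀ x, c.tgt S u x ^ 2 = (c.P S).indicator (fun x => c.w u x ^ 2) x := by
    intro x
    rw [tgt, neg_sq]
    by_cases hx : x ∈ c.P S
    · simp [hx]
    · simp [hx]
  simp_rw [h1]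
  rw [integral_indicator (c.measurableSet_P S)]
  have hi : Integrable (fun x => c.w u x ^ 2) (Measure.map (xc c.p) (c.σ S)) :=
    (c.memLp_w hu _).integrable_sq
  refine (integral_mono_measure (c.restrict_P_le hfin) (Eventually.of_forall fun _ => sq_nonneg _)
    hi).trans (le_of_eq ?_)
  rw [β, c.integral_map_xc _ hi.aestronglyMeasurable]

theorem integral_tgt_sq_map_le (hu : IsTest c.Ω u) (hfin : (μH[1] : Measure Plane) S ≠ ⊤) :
    ∫ x, c.tgt S u x ^ 2 ∂(Measure.map (xc c.p) (c.σ S)) ≤ c.β S u := by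
  have := c.isFiniteMeasure_σ hfin
  have hi : Integrable (fun x => c.w u x ^ 2) (Measure.map (xc c.p) (c.σ S)) :=
    (c.memLp_w hu _).integrable_sq
  have hi2 : Integrable (fun x => c.tgt S u x ^ 2) (Measure.map (xc c.p) (c.σ S)) :=
    (c.memLp_tgt hu _).integrable_sq
  refine (integral_mono hi2 hi ?_).trans (le_of_eq ?_)
  · intro x
    show c.tgt S u x ^ 2 ≤ c.w u x ^ 2
    rw [tgt, neg_sq]
    by_cases hx : x ∈ c.P S
    · simp [hx]
    · simp [hx, sq_nonneg]
  · rw [β, c.integral_map_xc _ hi.aestronglyMeasurable]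

/-- Existence of the smooth approximation and its basic bounds. -/
theorem exists_h (hu : IsTest c.Ω u) (hfin : (μH[1] : Measure Plane) S ≠ ⊤)
    {δ : ℝ} (hδ : 0 < δ) :
    ∃ h : ℝ → ℝ, ContDiff ℝ ∞ h ∧ HasCompactSupport h ∧
      ∫ x, (h x - c.tgt S u x) ^ 2 ≤ δ ∧
      ∫ z, (h (xc c.p z) - c.tgt S u (xc c.p z)) ^ 2 ∂(c.σ S) ≤ δ ∧
      ∫ x, h x ^ 2 ≤ 4 * c.β S u + 2 * δ ∧
      ∫ z, h (xc c.p z) ^ 2 ∂(c.σ S) ≤ 4 * c.β S u + 2 * δ := by
  have hσ := c.isFiniteMeasure_σ hfin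
  have hν := c.isLocallyFiniteMeasure_ν hfin
  obtain ⟨h, hh, hc, he⟩ := exists_smooth_approx (c.memLp_tgt (S := S) hu (c.ν S)) hδ
  have hm : ∀ (ν : Measure ℝ) [IsFiniteMeasureOnCompacts ν], MemLp h 2 ν := fun ν _ =>
    hh.continuous.memLp_of_hasCompactSupport hc
  have i1 : Integrable (fun x => (h x - c.tgt S u x) ^ 2) (volume : Measure ℝ) :=
    ((hm volume).sub (c.memLp_tgt hu volume)).integrable_sq
  have i2 : Integrable (fun x => (h x - c.tgt S u x) ^ 2) (Measure.map (xc c.p) (c.σ S)) :=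
    ((hm _).sub (c.memLp_tgt hu _)).integrable_sq
  have he' : (∫ x, (h x - c.tgt S u x) ^ 2)
      + ∫ x, (h x - c.tgt S u x) ^ 2 ∂(Measure.map (xc c.p) (c.σ S)) ≤ δ := by
    rw [ν, integral_add_measure i1 i2] at he
    exact he
  have n1 : 0 ≤ ∫ x, (h x - c.tgt S u x) ^ 2 := integral_nonneg fun _ => sq_nonneg _
  have n2 : 0 ≤ ∫ x, (h x - c.tgt S u x) ^ 2 ∂(Measure.map (xc c.p) (c.σ S)) :=
    integral_nonneg fun _ => sq_nonneg _
  have e1 : ∫ x, (h x - c.tgt S u x) ^ 2 ≤ δ := by linarith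
  have e2 : ∫ x, (h x - c.tgt S u x) ^ 2 ∂(Measure.map (xc c.p) (c.σ S)) ≤ δ := by linarith
  have key : ∀ (μ : Measure ℝ) [IsFiniteMeasureOnCompacts μ],
      ∫ x, c.tgt S u x ^ 2 ∂μ ≤ c.β S u → ∫ x, (h x - c.tgt S u x) ^ 2 ∂μ ≤ δ →
      ∫ x, h x ^ 2 ∂μ ≤ 4 * c.β S u + 2 * δ := by
    intro μ _ k1 k2
    have j1 : Integrable (fun x => (h x - c.tgt S u x) ^ 2) μ :=
      ((hm μ).sub (c.memLp_tgt hu μ)).integrable_sq
    have j2 : Integrable (fun x => c.tgt S u x ^ 2) μ := (c.memLp_tgt hu μ).integrable_sq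
    have hβ : 0 ≤ ∫ x, c.tgt S u x ^ 2 ∂μ := integral_nonneg fun _ => sq_nonneg _
    calc ∫ x, h x ^ 2 ∂μ ≤ ∫ x, (2 * (h x - c.tgt S u x) ^ 2 + 2 * c.tgt S u x ^ 2) ∂μ := by
          apply integral_mono (hm μ).integrable_sq ((j1.const_mul 2).add (j2.const_mul 2))
          intro x
          show h x ^ 2 ≤ 2 * (h x - c.tgt S u x) ^ 2 + 2 * c.tgt S u x ^ 2
          nlinarith [sq_nonneg (h x - c.tgt S u x - c.tgt S u x)]
      _ = 2 * ∫ x, (h x - c.tgt S u x) ^ 2 ∂μ + 2 * ∫ x, c.tgt S u x ^ 2 ∂μ := by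
          rw [integral_add (j1.const_mul 2) (j2.const_mul 2), integral_const_mul,
            integral_const_mul]
      _ ≤ 4 * c.β S u + 2 * δ := by linarith
  refine ⟨h, hh, hc, e1, ?_, key _ (c.integral_tgt_sq_volume_le hu hfin) e1, ?_⟩
  · rw [c.integral_map_xc _ i2.aestronglyMeasurable] at e2
    exact e2
  · have := key _ (c.integral_tgt_sq_map_le hu hfin) e2
    rwa [c.integral_map_xc _ (hm _).integrable_sq.aestronglyMeasurable] at this

end

end Cfg

end Pool.Agent.Lib.MP_3f57e5_an
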