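import Mathlib
import Pool.Agent.Lib.MP_3f57e5_an.Main1

/-!
# The first variation estimate
-/

open MeasureTheory Set Filter Topology
open scoped ContDiff ENNReal

namespace Pool.Agent.Lib.MP_3f57e5_an

namespace Cfg

variable (c : Cfg) {S : Set Plane} {u : Plane → ℝ}

theorem restrict_eq (hS : MeasurableSet S) (hseg : seg c.p e0 c.l ⊆ S) :
    (μH[1] : Measure Plane).restrict S = μH[1].restrict (seg c.p e0 c.l) + c.σ S := by
  rw [σ, ← Measure.restrict_union disjoint_sdiff_right (hS.diff (measurableSet_seg _ _ _)),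
    union_sdiff_cancel hseg]

theorem isFiniteMeasure_seg :
    IsFiniteMeasure ((μH[1] : Measure Plane).restrict (seg c.p e0 c.l)) :=
  ⟨by rw [Measure.restrict_apply_univ, hausdorff_seg _ norm_e0]; exact ENNReal.ofReal_lt_top⟩

theorem gradient_cut_seg {h : ℝ → ℝ} (hh : ContDiff ℝ ∞ h) {x : ℝ} (hx : x ∈ Icc 0 c.l) :
    gradient (cut c.p h c.χ) (ray c.p e0 x) = h x • e0 := by
  have hz : ray c.p e0 x ∈ seg c.p e0 c.l := mem_image_of_mem _ hx
  rw [gradient_cut c.p hh c.test, c.χ_one _ hz, c.grad_χ _ hz, xc_ray, mul_one, smul_zero,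
    add_zero]

theorem bil_seg {h : ℝ → ℝ} (hh : ContDiff ℝ ∞ h) :
    bil (μH[1].restrict (seg c.p e0 c.l)) u (cut c.p h c.χ)
      = ∫ x in Icc 0 c.l, c.w u x * h x := by
  rw [bil, integral_seg _ norm_e0]
  apply setIntegral_congr_fun measurableSet_Icc
  intro x hx
  simp only
  rw [c.gradient_cut_seg hh hx, inner_smul_right, w]
  ring

theorem dir_seg {h : ℝ → ℝ} (hh : ContDiff ℝ ∞ h) :
    dir (μH[1].restrict (seg c.p e0 c.l)) (cut c.p h c.χ) = ∫ x in Icc 0 c.l, h x ^ 2 := by
  rw [dir, integral_seg _ norm_e0]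
  apply setIntegral_congr_fun measurableSet_Icc
  intro x hx
  simp only
  rw [c.gradient_cut_seg hh hx, norm_smul, norm_e0, mul_one, Real.norm_eq_abs, sq_abs]

/-- The part of the first variation carried by `σ`. -/
theorem bil_σ_le (hS : MeasurableSet S) (hfin : (μH[1] : Measure Plane) S ≠ ⊤)
    (hu : IsTest c.Ω u) {h : ℝ → ℝ} (hh : ContDiff ℝ ∞ h) (hc : HasCompactSupport h) {δ K : ℝ}
    (h2 : ∫ z, (h (xc c.p z) - c.tgt S u (xc c.p z)) ^ 2 ∂(c.σ S) ≤ δ)
    (h3 : ∫ x, h x ^ 2 ≤ K)
    (h4 : ∫ z, h (xc c.p z) ^ 2 ∂(c.σ S) ≤ K) :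
    bil (c.σ S) u (cut c.p h c.χ) ≤ - c.β S u + √(c.β S u) * √δ + √(c.ρ S u) * √K
      + √(c.R * K) * c.τ S u := by
  have hσ := c.isFiniteMeasure_σ hfin
  -- the functions
  set X : Plane → ℝ := xc c.p with hX
  have hXm : AEMeasurable X (c.σ S) := (continuous_xc c.p).aemeasurable
  have m1 : MemLp (fun z => c.w u (X z)) 2 (c.σ S) :=
    (c.memLp_w hu (Measure.map X (c.σ S))).comp_of_map hXm
  have m2 : MemLp (fun z => h (X z)) 2 (c.σ S) :=
    (hh.continuous.memLp_of_hasCompactSupport (μ := Measure.map X (c.σ S)) hc).comp_of_map hXm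
  have m3 : MemLp (fun z => c.tgt S u (X z)) 2 (c.σ S) :=
    (c.memLp_tgt hu (Measure.map X (c.σ S))).comp_of_map hXm
  have m4 : MemLp (fun z => h (X z) - c.tgt S u (X z)) 2 (c.σ S) := m2.sub m3
  have m5 : MemLp (fun z => inner ℝ (gradient u z) e0 * c.χ z) 2 (c.σ S) := by
    refine Continuous.memLp_of_hasCompactSupport
      ((hu.continuous_gradient.inner continuous_const).mul c.test.continuous) ?_
    exact c.test.2.1.mul_left
  have m6 : MemLp (fun z => inner ℝ (gradient u z) e0 * c.χ z - c.w u (X z)) 2 (c.σ S) :=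
    m5.sub m1
  have i0 : Integrable (fun z => prim h (X z) * inner ℝ (gradient u z) (gradient c.χ z))
      (c.σ S) := by
    refine Continuous.integrable_of_hasCompactSupport ?_ ?_
    · exact ((contDiff_prim hh).continuous.comp (continuous_xc c.p)).mul
        (hu.continuous_gradient.inner c.test.continuous_gradient)
    · refine HasCompactSupport.mul_left ?_
      refine c.test.hasCompactSupport_gradient.mono ?_
      intro z hz
      rw [Function.mem_support] at hz ⊢
      intro h0
      apply hz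
      rw [h0, inner_zero_right]
  have i1 : Integrable (fun z => c.w u (X z) * (h (X z) - c.tgt S u (X z))) (c.σ S) :=
    m1.integrable_mul m4
  have i2 : Integrable (fun z => (inner ℝ (gradient u z) e0 * c.χ z - c.w u (X z)) * h (X z))
      (c.σ S) := m6.integrable_mul m2
  have i3 : Integrable (fun z => c.w u (X z) ^ 2) (c.σ S) := m1.integrable_sq
  -- decomposition
  have hdec : bil (c.σ S) u (cut c.p h c.χ)
      = ∫ z, c.w u (X z) * (h (X z) - c.tgt S u (X z)) ∂(c.σ S)
        - ∫ z, c.w u (X z) ^ 2 ∂(c.σ S)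
        + ∫ z, (inner ℝ (gradient u z) e0 * c.χ z - c.w u (X z)) * h (X z) ∂(c.σ S)
        + ∫ z, prim h (X z) * inner ℝ (gradient u z) (gradient c.χ z) ∂(c.σ S) := by
    have i13 : Integrable (fun z => c.w u (X z) * (h (X z) - c.tgt S u (X z))
        - c.w u (X z) ^ 2) (c.σ S) := i1.sub i3
    have i132 : Integrable (fun z => c.w u (X z) * (h (X z) - c.tgt S u (X z))
        - c.w u (X z) ^ 2
        + (inner ℝ (gradient u z) e0 * c.χ z - c.w u (X z)) * h (X z)) (c.σ S) := i13.add i2
    rw [← integral_sub i1 i3, ← integral_add i13 i2, ← integral_add i132 i0, bil]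
    apply integral_congr_ae
    filter_upwards [c.ae_mem_P hS] with z hz
    have ht : c.tgt S u (X z) = - c.w u (X z) := by
      rw [tgt, indicator_of_mem hz]
    rw [gradient_cut c.p hh c.test, inner_add_right, inner_smul_right, inner_smul_right, ht]
    ring
  have b1 : ∫ z, c.w u (X z) * (h (X z) - c.tgt S u (X z)) ∂(c.σ S) ≤ √(c.β S u) * √δ := by
    refine (le_abs_self _).trans ((abs_integral_mul_le m1 m4).trans ?_)
    exact mul_le_mul_of_nonneg_left (Real.sqrt_le_sqrt h2) (Real.sqrt_nonneg _)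
  have b2 : ∫ z, (inner ℝ (gradient u z) e0 * c.χ z - c.w u (X z)) * h (X z) ∂(c.σ S)
      ≤ √(c.ρ S u) * √K := by
    refine (le_abs_self _).trans ((abs_integral_mul_le m6 m2).trans ?_)
    exact mul_le_mul_of_nonneg_left (Real.sqrt_le_sqrt h4) (Real.sqrt_nonneg _)
  have b3 : ∫ z, prim h (X z) * inner ℝ (gradient u z) (gradient c.χ z) ∂(c.σ S)
      ≤ √(c.R * K) * c.τ S u := by
    rw [τ, ← integral_const_mul]
    have i4 : Integrable (fun z => √(c.R * K) * |inner ℝ (gradient u z) (gradient c.χ z)|)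
        (c.σ S) := ((hu.integrable_inner c.test).abs).const_mul _
    apply integral_mono i0 i4
    intro z
    show prim h (X z) * inner ℝ (gradient u z) (gradient c.χ z)
      ≤ √(c.R * K) * |inner ℝ (gradient u z) (gradient c.χ z)|
    by_cases hz : z ∈ c.Ω
    · have k1 : |prim h (X z)| ≤ √(c.R * K) := by
        rw [← Real.sqrt_sq_eq_abs]
        apply Real.sqrt_le_sqrt
        refine (sq_prim_le hh.continuous hc (c.xc_le z hz)).trans ?_
        exact mul_le_mul_of_nonneg_left h3 c.R_nonneg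
      calc _ ≤ |prim h (X z) * inner ℝ (gradient u z) (gradient c.χ z)| := le_abs_self _
        _ = |prim h (X z)| * |inner ℝ (gradient u z) (gradient c.χ z)| := abs_mul _ _
        _ ≤ _ := mul_le_mul_of_nonneg_right k1 (abs_nonneg _)
    · rw [hu.gradient_eq_zero hz]
      simp
  rw [hdec]
  have : ∫ z, c.w u (X z) ^ 2 ∂(c.σ S) = c.β S u := rfl
  rw [this]
  linarith

/-- The main estimate. -/
theorem cut_estimate (hS : MeasurableSet S) (hseg : seg c.p e0 c.l ⊆ S)
    (hfin : (μH[1] : Measure Plane) S ≠ ⊤) (hu : IsTest c.Ω u) {δ : ℝ} (hδ : 0 < δ) :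
    ∃ φ : Plane → ℝ, IsTest c.Ω φ ∧
      dir volume φ ≤ (2 * c.D + 2 * c.R * c.B ^ 2 * (volume c.Ω).toReal)
        * (4 * c.β S u + 2 * δ) ∧
      dir (μH[1].restrict S) φ ≤ (4 + 2 * c.R * c.B ^ 2 * (μH[1] S).toReal)
        * (4 * c.β S u + 2 * δ) ∧
      dir (μH[1].restrict (seg c.p e0 c.l)) φ ≤ 4 * c.β S u + 2 * δ ∧
      bil (μH[1].restrict S) u φ - 3 / 2 * bil (μH[1].restrict (seg c.p e0 c.l)) u φ
        ≤ - c.β S u / 2 + √(c.β S u) * √δ + √(c.A u) * √δ
          + √(c.ρ S u) * √(4 * c.β S u + 2 * δ)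
          + √(c.R * (4 * c.β S u + 2 * δ)) * c.τ S u := by
  have hσ := c.isFiniteMeasure_σ hfin
  have hsf := c.isFiniteMeasure_seg
  obtain ⟨h, hh, hc, h1, h2, h3, h4⟩ := c.exists_h hu hfin hδ
  set K := 4 * c.β S u + 2 * δ with hK
  have hres := c.restrict_eq hS hseg
  have hfinS : IsFiniteMeasure ((μH[1] : Measure Plane).restrict S) := ⟨by
    rw [Measure.restrict_apply_univ]; exact hfin.lt_top⟩
  have hm : MemLp h 2 (volume : Measure ℝ) := hh.continuous.memLp_of_hasCompactSupport hc
  have hseg2 : ∫ x in Icc 0 c.l, h x ^ 2 ≤ K :=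
    (setIntegral_le_integral hm.integrable_sq (Eventually.of_forall fun _ => sq_nonneg _)).trans h3
  have hK0 : 0 ≤ K := (integral_nonneg fun _ => sq_nonneg _).trans h3
  refine ⟨cut c.p h c.χ, isTest_cut c.p hh c.test, ?_, ?_, ?_, ?_⟩
  · refine (c.dir_volume_cut_le hh hc).trans ?_
    apply mul_le_mul_of_nonneg_left h3
    have := c.D_nonneg
    have := c.R_nonneg
    positivity
  · refine (c.dir_cut_le hh hc _).trans ?_
    have e1 : ∫ z, h (xc c.p z) ^ 2 ∂(μH[1].restrict S) ≤ 2 * K := by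
      have j : ∀ (ν : Measure Plane) [IsFiniteMeasure ν],
          Integrable (fun z => h (xc c.p z) ^ 2) ν := fun ν _ =>
        ((hh.continuous.memLp_of_hasCompactSupport (μ := Measure.map (xc c.p) ν)
          hc).comp_of_map (continuous_xc c.p).aemeasurable).integrable_sq
      rw [hres, integral_add_measure (j _) (j _), integral_seg _ norm_e0]
      simp only [xc_ray]
      linarith
    have e2 : ((μH[1] : Measure Plane).restrict S).real univ = (μH[1] S).toReal := by
      rw [measureReal_def, Measure.restrict_apply_univ]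
    rw [e2]
    have e3 : 0 ≤ (μH[1] S).toReal := ENNReal.toReal_nonneg
    have e4 : 2 * (c.R * ∫ s, h s ^ 2) * c.B ^ 2 * (μH[1] S).toReal
        ≤ 2 * (c.R * K) * c.B ^ 2 * (μH[1] S).toReal := by
      have := c.R_nonneg
      gcongr
    calc _ ≤ 2 * (2 * K) + 2 * (c.R * K) * c.B ^ 2 * (μH[1] S).toReal := by linarith
      _ = _ := by ring
  · rw [c.dir_seg hh]
    exact hseg2
  · have e1 : bil (μH[1].restrict S) u (cut c.p h c.χ)
        = bil (μH[1].restrict (seg c.p e0 c.l)) u (cut c.p h c.χ)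
          + bil (c.σ S) u (cut c.p h c.χ) := by
      rw [hres, bil, integral_add_measure (hu.integrable_inner (isTest_cut c.p hh c.test))
        (hu.integrable_inner (isTest_cut c.p hh c.test))]
      rfl
    have e2 := c.bil_σ_le hS hfin hu hh hc h2 h3 h4
    have e3 : - (∫ x in Icc 0 c.l, c.w u x * h x) ≤ c.β S u + √(c.A u) * √δ := by
      have mw : MemLp (c.w u) 2 (volume.restrict (Icc 0 c.l)) := (c.memLp_w hu volume).restrict _
      have mt : MemLp (c.tgt S u) 2 (volume.restrict (Icc 0 c.l)) :=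
        (c.memLp_tgt hu volume).restrict _
      have mh : MemLp h 2 (volume.restrict (Icc 0 c.l)) := hm.restrict _
      have md : MemLp (fun x => h x - c.tgt S u x) 2 (volume.restrict (Icc 0 c.l)) := mh.sub mt
      have j1 : Integrable (fun x => c.w u x * (h x - c.tgt S u x))
          (volume.restrict (Icc 0 c.l)) := mw.integrable_mul md
      have j2 : Integrable (fun x => c.tgt S u x ^ 2) (volume.restrict (Icc 0 c.l)) :=
        mt.integrable_sq
      have d1 : ∫ x in Icc 0 c.l, c.w u x * h x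
          = (∫ x in Icc 0 c.l, c.w u x * (h x - c.tgt S u x))
            - ∫ x in Icc 0 c.l, c.tgt S u x ^ 2 := by
        rw [← integral_sub j1 j2]
        apply integral_congr_ae
        filter_upwards with x
        by_cases hx : x ∈ c.P S
        · simp only [tgt, indicator_of_mem hx]; ring
        · simp only [tgt, indicator_of_notMem hx]; ring
      have d2 : |∫ x in Icc 0 c.l, c.w u x * (h x - c.tgt S u x)| ≤ √(c.A u) * √δ := by
        refine (abs_integral_mul_le mw md).trans ?_
        apply mul_le_mul_of_nonneg_left _ (Real.sqrt_nonneg _)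
        apply Real.sqrt_le_sqrt
        refine (setIntegral_le_integral ?_ (Eventually.of_forall fun _ => sq_nonneg _)).trans h1
        exact (hm.sub (c.memLp_tgt hu volume)).integrable_sq
      have d3 : ∫ x in Icc 0 c.l, c.tgt S u x ^ 2 ≤ c.β S u :=
        (setIntegral_le_integral (c.memLp_tgt hu volume).integrable_sq
          (Eventually.of_forall fun _ => sq_nonneg _)).trans (c.integral_tgt_sq_volume_le hu hfin)
      have d4 := (abs_le.1 d2).1
      rw [d1]
      linarith
    rw [e1, c.bil_seg hh]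
    have hA : 0 ≤ √(c.A u) * √δ := by positivity
    linarith

end Cfg

end Pool.Agent.Lib.MP_3f57e5_an
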