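import Mathlib
import Pool.Agent.Lib.MP_3f57e5_an.Main2

/-!
# Passing to the limit
-/

open MeasureTheory Set Filter Topology
open scoped ContDiff ENNReal BoundedContinuousFunction

namespace Pool.Agent.Lib.MP_3f57e5_an

namespace Cfg

variable (c : Cfg) {u : Plane → ℝ}

/-- The limit measure `(3/2) 𝓗¹` on the segment. -/
noncomputable def lim : Measure Plane :=
  ((3 / 2 : NNReal)) • (μH[1] : Measure Plane).restrict (seg c.p e0 c.l)

theorem isFiniteMeasure_lim : IsFiniteMeasure c.lim := by
  have := c.isFiniteMeasure_seg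
  unfold lim
  infer_instance

theorem integral_lim (g : Plane → ℝ) :
    ∫ z, g z ∂c.lim = 3 / 2 * ∫ z, g z ∂(μH[1].restrict (seg c.p e0 c.l)) := by
  rw [lim, integral_smul_nnreal_measure]
  rfl

theorem dir_lim (v : Plane → ℝ) :
    dir c.lim v = 3 / 2 * dir (μH[1].restrict (seg c.p e0 c.l)) v := c.integral_lim _

theorem bil_lim (u v : Plane → ℝ) :
    bil c.lim u v = 3 / 2 * bil (μH[1].restrict (seg c.p e0 c.l)) u v := c.integral_lim _

/-- The setting of the limit passage: networks containing the segment whose Hausdorff measures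
converge weakly to `(3/2) 𝓗¹` on the segment. -/
structure Conv {ι : Type*} (F : Filter ι) (S : ι → Set Plane) : Prop where
  meas : ∀ᶠ n in F, MeasurableSet (S n)
  sub : ∀ᶠ n in F, seg c.p e0 c.l ⊆ S n
  fin : ∀ᶠ n in F, (μH[1] : Measure Plane) (S n) ≠ ⊤
  tends : ∀ g : Plane →ᵇ ℝ, Tendsto (fun n => ∫ z, g z ∂(μH[1].restrict (S n))) F
    (𝓝 (∫ z, g z ∂c.lim))

variable {c}
variable {ι : Type*} {F : Filter ι} {S : ι → Set Plane}

theorem Conv.tendsto_σ (H : c.Conv F S) (g : Plane →ᵇ ℝ) :
    Tendsto (fun n => ∫ z, g z ∂(c.σ (S n))) F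
      (𝓝 (1 / 2 * ∫ x in Icc 0 c.l, g (ray c.p e0 x))) := by
  have hs := c.isFiniteMeasure_seg
  have h1 := (H.tends g).sub_const (∫ z, g z ∂(μH[1].restrict (seg c.p e0 c.l)))
  have h2 : ∫ z, g z ∂c.lim - ∫ z, g z ∂(μH[1].restrict (seg c.p e0 c.l))
      = 1 / 2 * ∫ x in Icc 0 c.l, g (ray c.p e0 x) := by
    rw [c.integral_lim, integral_seg _ norm_e0]
    ring
  rw [h2] at h1
  refine h1.congr' ?_
  filter_upwards [H.meas, H.sub, H.fin] with n h3 h4 h5
  have := c.isFiniteMeasure_σ h5
  rw [c.restrict_eq h3 h4, integral_add_measure (g.integrable _) (g.integrable _)]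
  ring

/-- a bounded continuous function from a continuous function with a bound -/
noncomputable def mkB (g : Plane → ℝ) (hg : Continuous g) (C : ℝ) (hC : ∀ z, |g z| ≤ C) :
    Plane →ᵇ ℝ := BoundedContinuousFunction.ofNormedAddCommGroup g hg C hC

theorem bounded_w (hu : IsTest c.Ω u) : ∃ C, ∀ x, |c.w u x| ≤ C := by
  obtain ⟨C, hC⟩ := (c.hasCompactSupport_w hu).exists_bound_of_continuous (c.continuous_w hu)
  exact ⟨C, hC⟩

theorem Conv.tendsto_β (H : c.Conv F S) (hu : IsTest c.Ω u) :
    Tendsto (fun n => c.β (S n) u) F (𝓝 (1 / 2 * c.A u)) := by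
  obtain ⟨C, hC⟩ := bounded_w hu
  have h := H.tendsto_σ (mkB (fun z => c.w u (xc c.p z) ^ 2)
    (((c.continuous_w hu).comp (continuous_xc c.p)).pow 2) (C ^ 2) (fun z => by
      rw [abs_pow]
      exact pow_le_pow_left₀ (abs_nonneg _) (hC _) 2))
  simp only [mkB, BoundedContinuousFunction.coe_ofNormedAddCommGroup, xc_ray] at h
  exact h

theorem Conv.tendsto_ρ (H : c.Conv F S) (hu : IsTest c.Ω u) :
    Tendsto (fun n => c.ρ (S n) u) F (𝓝 0) := by
  obtain ⟨C, hC⟩ := bounded_w hu
  have hcont : Continuous fun z => inner ℝ (gradient u z) e0 * c.χ z :=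
    (hu.continuous_gradient.inner continuous_const).mul c.test.continuous
  have hcs : HasCompactSupport fun z => inner ℝ (gradient u z) e0 * c.χ z :=
    c.test.2.1.mul_left
  obtain ⟨C', hC'⟩ := hcs.exists_bound_of_continuous hcont
  have h := H.tendsto_σ (mkB (fun z => (inner ℝ (gradient u z) e0 * c.χ z
    - c.w u (xc c.p z)) ^ 2)
    ((hcont.sub ((c.continuous_w hu).comp (continuous_xc c.p))).pow 2) ((C' + C) ^ 2) (fun z => by
      rw [abs_pow]
      exact pow_le_pow_left₀ (abs_nonneg _)
        ((abs_sub _ _).trans (add_le_add (hC' z) (hC _))) 2))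
  simp only [mkB, BoundedContinuousFunction.coe_ofNormedAddCommGroup, xc_ray] at h
  have h0 : ∫ x in Icc 0 c.l, (inner ℝ (gradient u (ray c.p e0 x)) e0 * c.χ (ray c.p e0 x)
      - c.w u x) ^ 2 = 0 := by
    rw [setIntegral_congr_fun (g := fun _ => (0 : ℝ)) measurableSet_Icc]
    · simp
    · intro x hx
      have hz : ray c.p e0 x ∈ seg c.p e0 c.l := mem_image_of_mem _ hx
      simp [c.χ_one _ hz, w]
  rw [h0, mul_zero] at h
  exact h

theorem Conv.tendsto_τ (H : c.Conv F S) (hu : IsTest c.Ω u) :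
    Tendsto (fun n => c.τ (S n) u) F (𝓝 0) := by
  have hcont : Continuous fun z => |inner ℝ (gradient u z) (gradient c.χ z)| :=
    (hu.continuous_gradient.inner c.test.continuous_gradient).abs
  have hcs : HasCompactSupport fun z => |inner ℝ (gradient u z) (gradient c.χ z)| := by
    refine hu.hasCompactSupport_gradient.mono ?_
    intro z hz
    rw [Function.mem_support] at hz ⊢
    intro h0
    apply hz
    rw [h0, inner_zero_left, abs_zero]
  obtain ⟨C', hC'⟩ := hcs.exists_bound_of_continuous hcont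
  have h := H.tendsto_σ (mkB (fun z => |inner ℝ (gradient u z) (gradient c.χ z)|)
    hcont C' hC')
  simp only [mkB, BoundedContinuousFunction.coe_ofNormedAddCommGroup] at h
  have h0 : ∫ x in Icc 0 c.l, |inner ℝ (gradient u (ray c.p e0 x))
      (gradient c.χ (ray c.p e0 x))| = 0 := by
    rw [setIntegral_congr_fun (g := fun _ => (0 : ℝ)) measurableSet_Icc]
    · simp
    · intro x hx
      have hz : ray c.p e0 x ∈ seg c.p e0 c.l := mem_image_of_mem _ hx
      simp [c.grad_χ _ hz]
  rw [h0, mul_zero] at h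
  exact h

theorem Conv.tendsto_dir (H : c.Conv F S) (hu : IsTest c.Ω u) :
    Tendsto (fun n => dir (μH[1].restrict (S n)) u) F (𝓝 (dir c.lim u)) := by
  have hcont : Continuous fun z => ‖gradient u z‖ ^ 2 := hu.continuous_gradient.norm.pow 2
  obtain ⟨C', hC'⟩ := hu.hasCompactSupport_gradient.exists_bound_of_continuous
    hu.continuous_gradient
  have h := H.tends (mkB (fun z => ‖gradient u z‖ ^ 2) hcont (C' ^ 2) (fun z => by
      rw [abs_pow, abs_norm]
      exact pow_le_pow_left₀ (norm_nonneg _) (hC' _) 2))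
  simp only [mkB, BoundedContinuousFunction.coe_ofNormedAddCommGroup] at h
  exact h

theorem Conv.tendsto_mass (H : c.Conv F S) :
    Tendsto (fun n => (μH[1] (S n)).toReal) F (𝓝 (3 / 2 * c.l)) := by
  have h := H.tends (mkB (fun _ => 1) continuous_const 1 (by simp))
  simp only [mkB, BoundedContinuousFunction.coe_ofNormedAddCommGroup] at h
  rw [c.integral_lim, integral_seg _ norm_e0] at h
  have hl := c.l_pos
  simp only [integral_const, smul_eq_mul, mul_one, measureReal_def, Measure.restrict_apply_univ,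
    Real.volume_Icc, sub_zero, ENNReal.toReal_ofReal hl.le] at h
  exact h

end Cfg

end Pool.Agent.Lib.MP_3f57e5_an
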