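import Mathlib
import Pool.Agent.Lib.MP_3f57e5_an.Limits

/-!
# Coercivity of the limit energy
-/

open MeasureTheory Set Filter Topology
open scoped ContDiff ENNReal BoundedContinuousFunction

namespace Pool.Agent.Lib.MP_3f57e5_an

namespace Cfg

variable (c : Cfg) {u : Plane → ℝ}

theorem A_nonneg (u : Plane → ℝ) : 0 ≤ c.A u := integral_nonneg fun _ => sq_nonneg _

/-- along the segment, `u` varies by at most `√(l A)` -/
theorem abs_sub_le (hu : IsTest c.Ω u) {z : Plane} (hz : z ∈ seg c.p e0 c.l) :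
    |u z - u c.p| ≤ √(c.l * c.A u) := by
  obtain ⟨x, hx, rfl⟩ := hz
  have hd : ∀ s, HasDerivAt (fun s => u (ray c.p e0 s)) (c.w u s) s := by
    intro s
    have h1 : HasDerivAt (fun s => ray c.p e0 s) e0 s := by
      unfold ray
      have := ((hasDerivAt_id s).smul_const e0).const_add c.p
      simpa using this
    have h2 := (hu.differentiable (ray c.p e0 s)).hasFDerivAt.comp_hasDerivAt s h1
    have h3 : fderiv ℝ u (ray c.p e0 s) e0 = c.w u s := by
      rw [w, inner_gradient_left]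
    rw [← h3]
    exact h2
  have h4 : u (ray c.p e0 x) - u c.p = ∫ s in (0:ℝ)..x, c.w u s := by
    rw [intervalIntegral.integral_eq_sub_of_hasDerivAt (fun s _ => hd s)
      ((c.continuous_w hu).intervalIntegrable _ _)]
    simp [ray]
  rw [h4, intervalIntegral.integral_of_le hx.1, ← integral_Icc_eq_integral_Ioc]
  have hsub : Icc 0 x ⊆ Icc 0 c.l := Icc_subset_Icc_right hx.2
  have m1 : MemLp (c.w u) 2 (volume.restrict (Icc 0 x)) := (c.memLp_w hu volume).restrict _
  have m2 : MemLp (fun _ : ℝ => (1 : ℝ)) 2 (volume.restrict (Icc 0 x)) := memLp_const 1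
  have h5 := abs_integral_mul_le m2 m1
  simp only [one_mul, one_pow] at h5
  refine h5.trans ?_
  rw [← Real.sqrt_mul (integral_nonneg fun _ => zero_le_one)]
  apply Real.sqrt_le_sqrt
  apply mul_le_mul
  · rw [setIntegral_const]
    simp [hx.1, hx.2]
  · exact setIntegral_mono_set (c.memLp_w hu volume).integrable_sq.integrableOn
      (Eventually.of_forall fun _ => sq_nonneg _) (LE.le.eventuallyLE hsub)
  · exact integral_nonneg fun _ => sq_nonneg _
  · exact c.l_pos.le

variable {α : Measure Plane} [IsProbabilityMeasure α]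

theorem abs_load_le (hα : α (seg c.p e0 c.l)ᶜ = 0) (hu : IsTest c.Ω u) :
    |∫ z, u z ∂α - u c.p| ≤ √(c.l * c.A u) := by
  have h1 : ∫ z, u z ∂α - u c.p = ∫ z, (u z - u c.p) ∂α := by
    rw [integral_sub hu.integrable (integrable_const _)]
    simp
  rw [h1]
  have h2 : ∀ᵐ z ∂α, ‖u z - u c.p‖ ≤ √(c.l * c.A u) := by
    have : ∀ᵐ z ∂α, z ∈ seg c.p e0 c.l := hα
    filter_upwards [this] with z hz
    exact c.abs_sub_le hu hz
  have h3 := norm_integral_le_of_norm_le_const h2
  simpa using h3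

theorem A_le_dir (hu : IsTest c.Ω u) : 3 / 2 * c.A u ≤ dir c.lim u := by
  rw [c.dir_lim, dir, integral_seg _ norm_e0, A]
  apply mul_le_mul_of_nonneg_left _ (by norm_num)
  have hg : Integrable (fun x => ‖gradient u (ray c.p e0 x)‖ ^ 2) (volume.restrict (Icc 0 c.l)) := by
    apply Continuous.integrableOn_Icc
    exact (hu.continuous_gradient.comp (continuous_ray _ _)).norm.pow 2
  apply integral_mono (c.memLp_w hu volume).integrable_sq.integrableOn hg
  intro x
  show c.w u x ^ 2 ≤ ‖gradient u (ray c.p e0 x)‖ ^ 2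
  rw [← sq_abs]
  apply pow_le_pow_left₀ (abs_nonneg _)
  have := abs_real_inner_le_norm (gradient u (ray c.p e0 x)) e0
  rwa [norm_e0, mul_one] at this

/-- lower bound of the limit energy functional -/
theorem energyOf_lim_ge (hα : α (seg c.p e0 c.l)ᶜ = 0) (hu : IsTest c.Ω u) {m : ℝ}
    (hm : 0 < m) :
    3 * m / 4 * c.A u - √(c.l * c.A u) ≤ energyOf c.Ω (load α c.p) m c.lim u := by
  rw [energyOf_eq c.isOpen.measurableSet hu]
  have h1 := dir_nonneg volume u
  have h2 := c.A_le_dir hu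
  have h3 := (abs_le.1 (c.abs_load_le hα hu)).2
  nlinarith

/-- lower bound for networks containing the segment -/
theorem energyOf_lim_ge' (hα : α (seg c.p e0 c.l)ᶜ = 0) (hu : IsTest c.Ω u) {m : ℝ}
    (hm : 0 < m) :
    - (c.l / (3 * m)) ≤ energyOf c.Ω (load α c.p) m c.lim u := by
  refine le_trans ?_ (c.energyOf_lim_ge hα hu hm)
  set s := √(c.l * c.A u) with hs
  have hs2 : s ^ 2 = c.l * c.A u := Real.sq_sqrt (mul_nonneg c.l_pos.le (c.A_nonneg u))
  have hl := c.l_pos
  have hA : c.A u = s ^ 2 / c.l := by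
    rw [hs2]; field_simp
  rw [hA]
  have h1 : 3 * m / 4 * (s ^ 2 / c.l) - s + c.l / (3 * m)
      = 3 * m / (4 * c.l) * (s - 2 * c.l / (3 * m)) ^ 2 := by
    field_simp
    ring
  have h2 : 0 ≤ 3 * m / (4 * c.l) * (s - 2 * c.l / (3 * m)) ^ 2 := by positivity
  linarith

/-- near minimisers have `A` bounded above and below -/
theorem A_bounds (hα : α (seg c.p e0 c.l)ᶜ = 0) (hu : IsTest c.Ω u) {m e : ℝ}
    (hm : 0 < m) (he : e < 0) (hle : energyOf c.Ω (load α c.p) m c.lim u ≤ e / 2) :
    e ^ 2 / (4 * c.l) ≤ c.A u ∧ c.A u ≤ 16 * c.l / (9 * m ^ 2) := by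
  have h1 := (c.energyOf_lim_ge hα hu hm).trans hle
  set s := √(c.l * c.A u) with hs
  have hs0 : 0 ≤ s := Real.sqrt_nonneg _
  have hs2 : s ^ 2 = c.l * c.A u := Real.sq_sqrt (mul_nonneg c.l_pos.le (c.A_nonneg u))
  have hl := c.l_pos
  have hA0 := c.A_nonneg u
  have hA : c.A u = s ^ 2 / c.l := by
    rw [hs2]; field_simp
  constructor
  · have h2 : -e / 2 ≤ s := by
      have : 0 ≤ 3 * m / 4 * c.A u := by positivity
      linarith
    rw [hA, div_le_div_iff₀ (by positivity) hl]
    have h3 : (-e / 2) ^ 2 ≤ s ^ 2 := pow_le_pow_left₀ (by linarith) h2 2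
    nlinarith
  · have h2 : 3 * m / 4 * c.A u ≤ s := by linarith
    have h3 : 3 * m / 4 * (s ^ 2 / c.l) ≤ s := by rwa [← hA]
    have h4 : s ≤ 4 * c.l / (3 * m) := by
      rcases hs0.eq_or_lt with h0 | h0
      · rw [← h0]; positivity
      · rw [le_div_iff₀ (by positivity)]
        have h5 : 3 * m / 4 * s ^ 2 ≤ s * c.l := by
          have := mul_le_mul_of_nonneg_right h3 hl.le
          calc 3 * m / 4 * s ^ 2 = 3 * m / 4 * (s ^ 2 / c.l) * c.l := by field_simp
            _ ≤ s * c.l := this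
        have h6 : 3 * m / 4 * s ≤ c.l := by
          by_contra hcon
          push Not at hcon
          have := mul_lt_mul_of_pos_right hcon h0
          nlinarith
        nlinarith
    have h5 : s ^ 2 ≤ (4 * c.l / (3 * m)) ^ 2 := pow_le_pow_left₀ hs0 h4 2
    rw [hA, div_le_iff₀ hl]
    refine h5.trans (le_of_eq ?_)
    field_simp
    ring

end Cfg

end Pool.Agent.Lib.MP_3f57e5_an
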