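import Mathlib
import Pool.Agent.Lib.MP_3f57e5_an.Capacity
import Pool.Agent.Lib.MP_3f57e5_an.Coercive

/-!
# Networks missing an atom of the load have energy `-∞`; the load
-/

open MeasureTheory Set Filter Topology Metric
open scoped ContDiff ENNReal

namespace Pool.Agent.Lib.MP_3f57e5_an

theorem energy_eq_bot {Ω U : Set Plane} {α ν : Measure Plane} [IsFiniteMeasure α] {p x : Plane}
    {m : ℝ} (hΩ : MeasurableSet Ω)
    (hU : IsOpen U) (hUΩ : U ⊆ Ω) (hp : p ∉ U) (hν : ν U = 0) (hx : x ∈ U) (hαx : α {x} ≠ 0) :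
    energy Ω (load α p) m ν = ⊥ := by
  obtain ⟨ρ, hρ, hball⟩ := Metric.isOpen_iff.1 hU x hx
  set c0 : ℝ := (α {x}).toReal with hc0
  have hc0' : 0 < c0 := ENNReal.toReal_pos hαx (measure_ne_top _ _)
  rw [EReal.eq_bot_iff_forall_lt]
  intro M
  -- parameters
  set t : ℝ := (2 * |M| + 2) / c0 with ht
  have ht' : 0 < t := by positivity
  obtain ⟨ζ, hζ, hζ0, hζ1, hζe⟩ := exists_small_energy x hρ (ε := 1 / t ^ 2) (by positivity)
  have hζΩ : IsTest Ω ζ := hζ.mono (hball.trans hUΩ)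
  have hcalc : energyOf Ω (load α p) m ν (t • ζ) < M := by
    have h1 : energyOf Ω (load α p) m ν (t • ζ)
        = 1 / 2 * (t ^ 2 * dir volume ζ) - t * ∫ z, ζ z ∂α := by
      rw [energyOf_eq hΩ (hζΩ.smul t)]
      have g1 : ∀ z, gradient (t • ζ) z = t • gradient ζ z := by
        intro z
        have h3 : gradient (0 : Plane → ℝ) z = 0 := gradient_const z (0:ℝ)
        have := (IsTest.zero Ω).gradient_add_smul hζΩ t z
        rw [zero_add, h3, zero_add] at this
        exact this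
      have d1 : dir volume (t • ζ) = t ^ 2 * dir volume ζ := by
        unfold dir
        simp_rw [g1, norm_smul, mul_pow, Real.norm_eq_abs, sq_abs]
        rw [integral_const_mul]
      have d2 : dir ν (t • ζ) = 0 := by
        unfold dir
        have : ∀ᵐ z ∂ν, ‖gradient (t • ζ) z‖ ^ 2 = (0:ℝ) := by
          have hae : ∀ᵐ z ∂ν, z ∉ U := measure_eq_zero_iff_ae_notMem.1 hν
          filter_upwards [hae] with z hz
          rw [g1, hζ.gradient_eq_zero fun h => hz (hball h)]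
          simp
        rw [integral_congr_ae this]
        simp
      have d3 : (t • ζ) p = 0 := by
        simp only [Pi.smul_apply, smul_eq_mul]
        rw [hζ.eq_zero fun h => hp (hball h), mul_zero]
      have d4 : ∫ z, (t • ζ) z ∂α = t * ∫ z, ζ z ∂α := by
        simp only [Pi.smul_apply, smul_eq_mul]
        rw [integral_const_mul]
      rw [d1, d2, d3, d4]
      ring
    have h2 : c0 ≤ ∫ z, ζ z ∂α := by
      have h3 : ∫ z in {x}, ζ z ∂α ≤ ∫ z, ζ z ∂α :=
        setIntegral_le_integral hζ.integrable (Eventually.of_forall hζ0)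
      rw [integral_singleton, hζ1, smul_eq_mul, mul_one] at h3
      exact h3
    have h4 : t ^ 2 * dir volume ζ ≤ 1 := by
      have := mul_le_mul_of_nonneg_left hζe (sq_nonneg t)
      rwa [mul_one_div, div_self (by positivity)] at this
    have h5 : t * c0 = 2 * |M| + 2 := by
      rw [ht, div_mul_cancel₀ _ hc0'.ne']
    have h6 : t * c0 ≤ t * ∫ z, ζ z ∂α := mul_le_mul_of_nonneg_left h2 ht'.le
    have h7 : -|M| ≤ M := neg_abs_le M
    have h8 := abs_nonneg M
    rw [h1]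
    linarith
  exact lt_of_le_of_lt (iInf₂_le (t • ζ) (hζΩ.smul t)) (EReal.coe_lt_coe_iff.2 hcalc)

/-- The measure `α`: atoms on a dense sequence of points of the segment. -/
theorem exists_alpha (p : Plane) {l : ℝ} (hl : 0 < l) :
    ∃ α : Measure Plane, IsProbabilityMeasure α ∧ α (seg p e0 l)ᶜ = 0 ∧
      ∀ U : Set Plane, IsOpen U → (U ∩ seg p e0 l).Nonempty →
        ∃ z ∈ U ∩ seg p e0 l, α {z} ≠ 0 := by
  have hne : Nonempty (Icc (0:ℝ) l) := ⟨⟨0, le_refl _, hl.le⟩⟩
  let q : ℕ → Icc (0:ℝ) l := TopologicalSpace.denseSeq (Icc (0:ℝ) l)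
  let x : ℕ → Plane := fun i => ray p e0 (q i)
  have hx : ∀ i, x i ∈ seg p e0 l := fun i => mem_image_of_mem _ (q i).2
  refine ⟨Measure.sum fun i : ℕ => ((2:ℝ≥0∞)⁻¹ ^ (i + 1)) • Measure.dirac (x i), ⟨?_⟩, ?_, ?_⟩
  · rw [Measure.sum_apply _ MeasurableSet.univ]
    simp only [Measure.smul_apply, measure_univ, smul_eq_mul, mul_one]
    rw [ENNReal.tsum_geometric_add_one]
    rw [ENNReal.one_sub_inv_two, inv_inv]
    exact ENNReal.inv_mul_cancel (by norm_num) (by norm_num)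
  · rw [Measure.sum_apply _ (measurableSet_seg _ _ _).compl]
    rw [ENNReal.tsum_eq_zero]
    intro i
    rw [Measure.smul_apply, Measure.dirac_apply' _ (measurableSet_seg _ _ _).compl,
      indicator_of_notMem (by simpa using hx i)]
    simp
  · rintro U hU ⟨z, hzU, y, hy, rfl⟩
    have hV : IsOpen ((fun s : Icc (0:ℝ) l => ray p e0 s) ⁻¹' U) :=
      hU.preimage ((continuous_ray _ _).comp continuous_subtype_val)
    obtain ⟨s, hs, i, hi⟩ :=
      (TopologicalSpace.denseRange_denseSeq (Icc (0:ℝ) l)).exists_mem_open hV ⟨⟨y, hy⟩, hzU⟩ |>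
        fun ⟨i, hi⟩ => (⟨_, hi, i, rfl⟩ : ∃ s, s ∈ ((fun s : Icc (0:ℝ) l => ray p e0 s) ⁻¹' U) ∧
          ∃ i, q i = s)
    refine ⟨x i, ⟨?_, hx i⟩, ?_⟩
    · have : x i = ray p e0 s := by rw [← hi]
      rw [this]
      exact hs
    · have h1 : ((2:ℝ≥0∞)⁻¹ ^ (i + 1)) • Measure.dirac (x i) {x i}
          ≤ (Measure.sum fun i : ℕ => ((2:ℝ≥0∞)⁻¹ ^ (i + 1)) • Measure.dirac (x i)) {x i} := by
        have := Measure.le_sum (fun i : ℕ => ((2:ℝ≥0∞)⁻¹ ^ (i + 1)) • Measure.dirac (x i)) i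
        exact this {x i}
      intro h0
      rw [h0] at h1
      have h2 : ((2:ℝ≥0∞)⁻¹ ^ (i + 1)) • Measure.dirac (x i) {x i} ≠ 0 := by
        simp
      exact h2 (nonpos_iff_eq_zero.1 h1)

end Pool.Agent.Lib.MP_3f57e5_an
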