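import Mathlib
import Pool.Agent.Lib.MP_3f57e5_an.Geom

/-!
# Combs: approximation of `(3/2) 𝓗¹` on a segment by the Hausdorff measure of networks
-/

open MeasureTheory Set Filter Topology Metric
open scoped ContDiff ENNReal

namespace Pool.Agent.Lib.MP_3f57e5_an

/-- the foot of the `j`-th tooth (out of `k`) -/
noncomputable def foot (p : Plane) (l : ℝ) (k j : ℕ) : Plane := ray p e0 (j * (l / k))

/-- the `j`-th tooth (out of `k`) -/
noncomputable def tooth (p : Plane) (l : ℝ) (k j : ℕ) : Set Plane :=
  seg (foot p l k j) e1 (l / k / 2)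

/-- the comb with the first `i` out of `k` teeth -/
noncomputable def comb (p : Plane) (l : ℝ) (k : ℕ) : ℕ → Set Plane
  | 0 => seg p e0 l
  | i + 1 => comb p l k i ∪ tooth p l k i

section

variable (p : Plane) {l : ℝ} (hl : 0 < l) {k : ℕ} (hk : 0 < k)

include hl hk

theorem foot_mem_seg {j : ℕ} (hj : j ≤ k) : foot p l k j ∈ seg p e0 l := by
  refine mem_image_of_mem _ ⟨by positivity, ?_⟩
  have h1 : (j:ℝ) ≤ k := by exact_mod_cast hj
  have hk' : (0:ℝ) < k := by exact_mod_cast hk
  calc (j:ℝ) * (l / k) ≤ k * (l / k) := by gcongr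
    _ = l := by field_simp

omit hk in
theorem foot_mem_tooth (j : ℕ) : foot p l k j ∈ tooth p l k j := by
  refine ⟨0, ⟨le_refl _, by positivity⟩, ?_⟩
  simp [ray]

omit hl hk in
theorem isCompact_comb (i : ℕ) : IsCompact (comb p l k i) := by
  induction i with
  | zero => exact isCompact_seg _ _ _
  | succ i ih => exact ih.union (isCompact_seg _ _ _)

omit hl hk in
theorem seg_subset_comb (i : ℕ) : seg p e0 l ⊆ comb p l k i := by
  induction i with
  | zero => exact subset_rfl
  | succ i ih => exact ih.trans subset_union_left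

omit hl hk in
theorem isPreconnected_seg (q v : Plane) (l : ℝ) : IsPreconnected (seg q v l) :=
  isPreconnected_Icc.image _ (continuous_ray q v).continuousOn

theorem isConnected_comb {i : ℕ} (hi : i ≤ k) : IsConnected (comb p l k i) := by
  refine ⟨⟨p, seg_subset_comb p i ⟨0, ⟨le_refl _, hl.le⟩, by simp [ray]⟩⟩, ?_⟩
  induction i with
  | zero => exact isPreconnected_seg _ _ _
  | succ i ih =>
      have hi' : i ≤ k := by omega
      refine IsPreconnected.union (foot p l k i) ?_ (foot_mem_tooth p hl i) (ih hi')
        (isPreconnected_seg _ _ _)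
      exact seg_subset_comb p i (foot_mem_seg p hl hk hi')

theorem comb_subset {i : ℕ} (hi : i ≤ k) : comb p l k i ⊆ closedBall p (3 / 2 * l) := by
  have hk' : (0:ℝ) < k := by exact_mod_cast hk
  have hk1 : (1:ℝ) ≤ k := by exact_mod_cast hk
  induction i with
  | zero =>
      rintro _ ⟨x, hx, rfl⟩
      rw [mem_closedBall, dist_eq_norm]
      have : ray p e0 x - p = x • e0 := by simp [ray]
      rw [this, norm_smul, norm_e0, mul_one, Real.norm_eq_abs, abs_of_nonneg hx.1]
      linarith [hx.2]
  | succ i ih =>
      refine union_subset (ih (by omega)) ?_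
      rintro _ ⟨y, hy, rfl⟩
      rw [mem_closedBall, dist_eq_norm]
      have h1 : ray (foot p l k i) e1 y - p = ((i:ℝ) * (l / k)) • e0 + y • e1 := by
        simp only [ray, foot]
        abel
      rw [h1]
      refine (norm_add_le _ _).trans ?_
      rw [norm_smul, norm_smul, norm_e0, norm_e1, mul_one, mul_one, Real.norm_eq_abs,
        Real.norm_eq_abs, abs_of_nonneg hy.1, abs_of_nonneg (by positivity)]
      have h2 : (i:ℝ) ≤ k := by exact_mod_cast (by omega : i ≤ k)
      have h3 : (i:ℝ) * (l / k) ≤ l := by
        calc (i:ℝ) * (l / k) ≤ k * (l / k) := by gcongr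
          _ = l := by field_simp
      have h4 : y ≤ l / 2 := by
        refine hy.2.trans ?_
        have : l / k ≤ l := div_le_self hl.le hk1
        linarith
      linarith

theorem comb_inter_tooth {i : ℕ} (_ : i < k) : comb p l k i ∩ tooth p l k i ⊆ {foot p l k i} := by
  have hk' : (0:ℝ) < k := by exact_mod_cast hk
  have key : ∀ n, n ≤ i → comb p l k n ∩ tooth p l k i ⊆ {foot p l k i} := by
    intro n hn
    induction n with
    | zero =>
        rintro z ⟨⟨x, hx, rfl⟩, ⟨y, hy, hxy⟩⟩
        have h1 := congrArg (fun z : Plane => z 1) hxy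
        simp [ray, foot] at h1
        rw [mem_singleton_iff, ← hxy, h1]
        simp [ray]
    | succ n ih =>
        rintro z ⟨hz1 | hz1, hz2⟩
        · exact ih (by omega) ⟨hz1, hz2⟩
        · exfalso
          obtain ⟨x, hx, rfl⟩ := hz1
          obtain ⟨y, hy, hxy⟩ := hz2
          have h1 := congrArg (fun z : Plane => z 0) hxy
          simp [ray, foot] at h1
          rcases h1 with h1 | h1
          · omega
          · rcases h1 with h1 | h1
            · exact hl.ne' h1
            · omega
  exact key i le_rfl

theorem restrict_comb {i : ℕ} (hi : i < k) :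
    (μH[1] : Measure Plane).restrict (comb p l k (i + 1))
      = μH[1].restrict (comb p l k i) + μH[1].restrict (tooth p l k i) := by
  have hns := Measure.nullSingletonClass_hausdorff Plane (d := 1) one_pos
  rw [comb]
  apply Measure.restrict_union₀
  · show (μH[1] : Measure Plane) (comb p l k i ∩ tooth p l k i) = 0
    exact measure_mono_null (comb_inter_tooth p hl hk hi) (measure_singleton _)
  · exact (measurableSet_seg _ _ _).nullMeasurableSet

theorem hausdorff_comb {i : ℕ} (hi : i ≤ k) :
    (μH[1] : Measure Plane) (comb p l k i) = ENNReal.ofReal (l + i * (l / k / 2)) := by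
  induction i with
  | zero => rw [comb, hausdorff_seg _ norm_e0]; simp
  | succ i ih =>
      have h1 := restrict_comb p hl hk (show i < k by omega)
      have h2 := congrArg (fun μ : Measure Plane => μ univ) h1
      simp only [Measure.restrict_apply_univ, Measure.add_apply] at h2
      rw [h2, ih (by omega), tooth, hausdorff_seg _ norm_e1, ← ENNReal.ofReal_add (by positivity)
        (by positivity)]
      congr 1
      push_cast
      ring

theorem integral_comb (g : Plane → ℝ) (hg : Continuous g) {i : ℕ} (hi : i ≤ k) :
    ∫ z, g z ∂((μH[1] : Measure Plane).restrict (comb p l k i))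
      = (∫ x in Icc 0 l, g (ray p e0 x))
        + ∑ j ∈ Finset.range i, ∫ y in Icc 0 (l / k / 2), g (ray (foot p l k j) e1 y) := by
  induction i with
  | zero => rw [comb, integral_seg _ norm_e0]; simp
  | succ i ih =>
      have hi' : i < k := by omega
      have hint : ∀ T : Set Plane, IsCompact T → (μH[1] : Measure Plane) T ≠ ⊤ →
          Integrable g ((μH[1] : Measure Plane).restrict T) := by
        intro T hT hfin
        exact hg.continuousOn.integrableOn_of_subset_isCompact hT hT.measurableSet subset_rfl hfin
      have h1 : (μH[1] : Measure Plane) (comb p l k i) ≠ ⊤ := by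
        rw [hausdorff_comb p hl hk hi'.le]
        exact ENNReal.ofReal_ne_top
      have h2 : (μH[1] : Measure Plane) (tooth p l k i) ≠ ⊤ := by
        rw [tooth, hausdorff_seg _ norm_e1]
        exact ENNReal.ofReal_ne_top
      have h3 : Integrable g ((μH[1] : Measure Plane).restrict (tooth p l k i)) :=
        hint _ (isCompact_seg _ _ _) h2
      rw [restrict_comb p hl hk hi', integral_add_measure (hint _ (isCompact_comb p i) h1) h3,
        ih hi'.le, Finset.sum_range_succ, tooth, integral_seg _ norm_e1]
      ring

/-- The error between the integral over the comb and its limit. -/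
theorem integral_comb_sub_le (g : Plane → ℝ) (hg : Continuous g) {om : ℝ}
    (hom : ∀ z w : Plane, z ∈ closedBall p (3 / 2 * l) → w ∈ closedBall p (3 / 2 * l) →
      dist z w ≤ l / k → |g z - g w| ≤ om) :
    |∫ z, g z ∂((μH[1] : Measure Plane).restrict (comb p l k k))
      - 3 / 2 * ∫ x in Icc 0 l, g (ray p e0 x)| ≤ l * om := by
  have hk' : (0:ℝ) < k := by exact_mod_cast hk
  set h : ℝ := l / k with hh
  have hh0 : 0 < h := by positivity
  have hkh : (k:ℝ) * h = l := by rw [hh]; field_simp
  have hray : Continuous fun x => g (ray p e0 x) := hg.comp (continuous_ray _ _)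
  have hom0 : 0 ≤ om := by
    have := hom p p (mem_closedBall_self (by positivity)) (mem_closedBall_self (by positivity))
      (by rw [dist_self]; positivity)
    simpa using this
  -- the integral over the segment as a sum
  have hsum : ∫ x in Icc 0 l, g (ray p e0 x)
      = ∑ j ∈ Finset.range k, ∫ x in ((j:ℝ) * h)..((j + 1 : ℕ) * h), g (ray p e0 x) := by
    rw [intervalIntegral.sum_integral_adjacent_intervals
      (a := fun j : ℕ => (j:ℝ) * h) (fun j _ => hray.intervalIntegrable _ _)]
    simp only [Nat.cast_zero, zero_mul]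
    rw [hkh, intervalIntegral.integral_of_le hl.le, integral_Icc_eq_integral_Ioc]
  have key : ∀ j ∈ Finset.range k,
      |(∫ y in Icc 0 (h / 2), g (ray (foot p l k j) e1 y))
        - 1 / 2 * ∫ x in ((j:ℝ) * h)..((j + 1 : ℕ) * h), g (ray p e0 x)| ≤ h * om := by
    intro j hj
    have hjk : j < k := Finset.mem_range.1 hj
    have hfoot : foot p l k j ∈ closedBall p (3 / 2 * l) :=
      comb_subset p hl hk (i := 0) (by omega) (foot_mem_seg p hl hk hjk.le)
    have a1 : |(∫ y in Icc 0 (h / 2), g (ray (foot p l k j) e1 y)) - h / 2 * g (foot p l k j)|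
        ≤ h / 2 * om := by
      have b1 : (∫ y in Icc 0 (h / 2), g (ray (foot p l k j) e1 y)) - h / 2 * g (foot p l k j)
          = ∫ y in (0:ℝ)..(h / 2), (g (ray (foot p l k j) e1 y) - g (foot p l k j)) := by
        have hray1 : Continuous fun y => g (ray (foot p l k j) e1 y) :=
          hg.comp (continuous_ray _ _)
        rw [intervalIntegral.integral_sub (hray1.intervalIntegrable _ _) (by simp),
          intervalIntegral.integral_const, intervalIntegral.integral_of_le (by positivity),
          integral_Icc_eq_integral_Ioc]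
        simp only [smul_eq_mul, sub_zero]
      rw [b1, ← Real.norm_eq_abs]
      have b2 := intervalIntegral.norm_integral_le_of_norm_le_const (a := (0:ℝ)) (b := h / 2)
        (f := fun y => g (ray (foot p l k j) e1 y) - g (foot p l k j)) (C := om) (by
          intro y hy
          rw [uIoc_of_le (by positivity)] at hy
          rw [Real.norm_eq_abs]
          apply hom _ _ _ hfoot
          · rw [dist_eq_norm]
            have : ray (foot p l k j) e1 y - foot p l k j = y • e1 := by simp [ray]
            rw [this, norm_smul, norm_e1, mul_one, Real.norm_eq_abs, abs_of_pos hy.1]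
            linarith [hy.2]
          · apply comb_subset p hl hk (i := j + 1) (by omega)
            right
            exact mem_image_of_mem _ ⟨hy.1.le, hy.2⟩)
      rw [sub_zero, abs_of_pos (by positivity)] at b2
      linarith
    have a2 : |h / 2 * g (foot p l k j)
        - 1 / 2 * ∫ x in ((j:ℝ) * h)..((j + 1 : ℕ) * h), g (ray p e0 x)| ≤ h / 2 * om := by
      have hlen : ((j + 1 : ℕ) : ℝ) * h - j * h = h := by push_cast; ring
      have b1 : h / 2 * g (foot p l k j)
          - 1 / 2 * ∫ x in ((j:ℝ) * h)..((j + 1 : ℕ) * h), g (ray p e0 x)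
          = - (1 / 2 * ∫ x in ((j:ℝ) * h)..((j + 1 : ℕ) * h),
              (g (ray p e0 x) - g (foot p l k j))) := by
        rw [intervalIntegral.integral_sub (hray.intervalIntegrable _ _) (by simp),
          intervalIntegral.integral_const, hlen]
        simp only [smul_eq_mul]
        ring
      rw [b1, abs_neg, abs_mul, abs_of_pos (by norm_num : (0:ℝ) < 1 / 2), ← Real.norm_eq_abs]
      have b2 := intervalIntegral.norm_integral_le_of_norm_le_const (a := (j:ℝ) * h)
        (b := (j + 1 : ℕ) * h)
        (f := fun x => g (ray p e0 x) - g (foot p l k j)) (C := om) (by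
          intro x hx
          rw [uIoc_of_le (by linarith)] at hx
          have hj1 : ((j + 1 : ℕ) : ℝ) ≤ k := by exact_mod_cast hjk
          have hxl : x ≤ l := by
            refine hx.2.trans ?_
            rw [← hkh]
            gcongr
          have hj0 : 0 ≤ (j:ℝ) * h := by positivity
          rw [Real.norm_eq_abs]
          apply hom _ _ _ hfoot
          · rw [dist_eq_norm]
            have : ray p e0 x - foot p l k j = (x - j * h) • e0 := by
              simp only [ray, foot, sub_smul]
              abel
            rw [this, norm_smul, norm_e0, mul_one, Real.norm_eq_abs,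
              abs_of_pos (by linarith [hx.1])]
            linarith [hx.2]
          · apply comb_subset p hl hk (i := 0) (by omega)
            exact mem_image_of_mem _ ⟨by linarith [hx.1], hxl⟩)
      rw [hlen, abs_of_pos hh0] at b2
      linarith
    have a3 := abs_sub_le (∫ y in Icc 0 (h / 2), g (ray (foot p l k j) e1 y))
      (h / 2 * g (foot p l k j))
      (1 / 2 * ∫ x in ((j:ℝ) * h)..((j + 1 : ℕ) * h), g (ray p e0 x))
    linarith
  rw [integral_comb p hl hk g hg le_rfl]
  have h1 : (∫ x in Icc 0 l, g (ray p e0 x))
        + (∑ j ∈ Finset.range k, ∫ y in Icc 0 (l / k / 2), g (ray (foot p l k j) e1 y))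
        - 3 / 2 * ∫ x in Icc 0 l, g (ray p e0 x)
      = ∑ j ∈ Finset.range k, ((∫ y in Icc 0 (h / 2), g (ray (foot p l k j) e1 y))
        - 1 / 2 * ∫ x in ((j:ℝ) * h)..((j + 1 : ℕ) * h), g (ray p e0 x)) := by
    rw [Finset.sum_sub_distrib, ← Finset.mul_sum, ← hsum]
    ring
  rw [h1]
  refine (Finset.abs_sum_le_sum_abs _ _).trans ((Finset.sum_le_sum key).trans (le_of_eq ?_))
  rw [Finset.sum_const, Finset.card_range, nsmul_eq_mul, ← mul_assoc, hkh]

end

/-- Weak convergence of the combs. -/
theorem tendsto_integral_comb (p : Plane) {l : ℝ} (hl : 0 < l) (g : Plane → ℝ)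
    (hg : Continuous g) :
    Tendsto (fun k : ℕ => ∫ z, g z ∂((μH[1] : Measure Plane).restrict
      (comb p l (k + 1) (k + 1)))) atTop
      (𝓝 (3 / 2 * ∫ x in Icc 0 l, g (ray p e0 x))) := by
  rw [Metric.tendsto_atTop]
  intro ε hε
  have huc : UniformContinuousOn g (closedBall p (3 / 2 * l)) :=
    (isCompact_closedBall _ _).uniformContinuousOn_of_continuous hg.continuousOn
  obtain ⟨δ, hδ, huc⟩ := Metric.uniformContinuousOn_iff.1 huc (ε / (2 * l)) (by positivity)
  obtain ⟨N, hN⟩ := exists_nat_gt (l / δ)
  refine ⟨N, fun k hk => ?_⟩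
  have hk1 : (N:ℝ) ≤ k := by exact_mod_cast hk
  have hk0 : (0:ℝ) < (k + 1 : ℕ) := by positivity
  rw [Real.dist_eq]
  have h1 := integral_comb_sub_le p hl (Nat.succ_pos k) g hg (om := ε / (2 * l)) (by
    intro z w hz hw hzw
    have h2 : l / (k + 1 : ℕ) < δ := by
      rw [div_lt_iff₀ hk0]
      rw [div_lt_iff₀ hδ] at hN
      push_cast
      nlinarith
    have h3 := huc z hz w hw (lt_of_le_of_lt hzw h2)
    rw [Real.dist_eq] at h3
    exact h3.le)
  refine lt_of_le_of_lt h1 ?_
  have : l * (ε / (2 * l)) = ε / 2 := by field_simp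
  rw [this]
  linarith

end Pool.Agent.Lib.MP_3f57e5_an
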