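import Mathlib
import Pool.Agent.Lib.MP_3f57e5_an.Coercive

/-!
# The energy gap
-/

open MeasureTheory Set Filter Topology
open scoped ContDiff ENNReal BoundedContinuousFunction

namespace Pool.Agent.Lib.MP_3f57e5_an

namespace Cfg

variable (c : Cfg) {α : Measure Plane} [IsProbabilityMeasure α]

/-- first variation of the limit functional -/
noncomputable def fv (α : Measure Plane) (m : ℝ) (u φ : Plane → ℝ) : ℝ :=
  bil volume u φ + m * bil c.lim u φ - (∫ z, φ z ∂α - φ c.p)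

/-- quadratic part -/
noncomputable def qf (m : ℝ) (ν : Measure Plane) (φ : Plane → ℝ) : ℝ :=
  1 / 2 * dir volume φ + m / 2 * dir ν φ

theorem abs_fv_le {m e ε : ℝ} {u φ : Plane → ℝ} (hu : IsTest c.Ω u) (hφ : IsTest c.Ω φ)
    (hmin : ∀ v, IsTest c.Ω v → e ≤ energyOf c.Ω (load α c.p) m c.lim v)
    (hnear : energyOf c.Ω (load α c.p) m c.lim u ≤ e + ε) :
    |c.fv α m u φ| ≤ 2 * √(ε * qf m c.lim φ) := by
  have hl := c.isFiniteMeasure_lim
  have h1 : ∀ s : ℝ, 0 ≤ qf m c.lim φ * (s * s) + c.fv α m u φ * s + ε := by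
    intro s
    have h2 := hmin _ (hu.add_smul hφ s)
    rw [energyOf_add_smul c.isOpen.measurableSet hu hφ] at h2
    unfold fv qf
    nlinarith
  have h3 := discrim_le_zero h1
  unfold discrim at h3
  have h4 : (c.fv α m u φ) ^ 2 ≤ 4 * (ε * qf m c.lim φ) := by nlinarith
  calc |c.fv α m u φ| = √((c.fv α m u φ) ^ 2) := (Real.sqrt_sq_eq_abs _).symm
    _ ≤ √(4 * (ε * qf m c.lim φ)) := Real.sqrt_le_sqrt h4
    _ = 2 * √(ε * qf m c.lim φ) := by
        rw [Real.sqrt_mul (by norm_num)]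
        congr 1
        rw [show (4:ℝ) = 2 ^ 2 by norm_num]
        exact Real.sqrt_sq (by norm_num)

theorem gap (hα : α (seg c.p e0 c.l)ᶜ = 0) {m e : ℝ} (hm : 0 < m) (he : e < 0)
    (hE : energy c.Ω (load α c.p) m c.lim = (e : EReal)) :
    ∃ κ : ℝ, 0 < κ ∧ ∀ (F : Filter ℕ) (S : ℕ → Set Plane), c.Conv F S →
      ∀ᶠ n in F, energy c.Ω (load α c.p) m (μH[1].restrict (S n)) ≤ ((e - κ : ℝ) : EReal) := by
  have hlim := c.isFiniteMeasure_lim
  have hl := c.l_pos
  have hR := c.R_nonneg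
  have hD := c.D_nonneg
  have hmin : ∀ v, IsTest c.Ω v → e ≤ energyOf c.Ω (load α c.p) m c.lim v := by
    intro v hv
    have h1 : energy c.Ω (load α c.p) m c.lim ≤ (energyOf c.Ω (load α c.p) m c.lim v : EReal) :=
      iInf₂_le v hv
    rw [hE] at h1
    exact EReal.coe_le_coe_iff.1 h1
  -- constants
  set c1 : ℝ := 2 * c.D + 2 * c.R * c.B ^ 2 * (volume c.Ω).toReal with hc1
  have hc1' : 0 ≤ c1 := by positivity
  set c2 : ℝ := 4 + 2 * c.R * c.B ^ 2 * (2 * c.l) with hc2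
  have hc2' : 4 ≤ c2 := by
    have : 0 ≤ 2 * c.R * c.B ^ 2 * (2 * c.l) := by positivity
    linarith
  set CQ : ℝ := c1 / 2 + m / 2 * c2 with hCQ
  have hCQ' : 0 < CQ := by positivity
  set t : ℝ := m / (48 * CQ) with ht
  have ht' : 0 < t := by positivity
  set η0 : ℝ := e ^ 2 / (4 * c.l) with hη0
  have hη0' : 0 < η0 := by
    have : 0 < e ^ 2 := by nlinarith
    positivity
  set η1 : ℝ := 16 * c.l / (9 * m ^ 2) with hη1
  have hη1' : 0 < η1 := by positivity
  set g : ℝ := m ^ 2 * η0 / (768 * CQ) with hg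
  have hg' : 0 < g := by positivity
  -- choice of ε
  obtain ⟨ε, hε, hε1, hε2⟩ : ∃ ε : ℝ, 0 < ε ∧ ε ≤ -e / 2 ∧
      2 * ε + t * (2 * √(ε * (3 * CQ * η1))) ≤ g / 2 := by
    have h1 : Tendsto (fun ε : ℝ => 2 * ε + t * (2 * √(ε * (3 * CQ * η1)))) (𝓝[>] 0)
        (𝓝 (2 * 0 + t * (2 * √(0 * (3 * CQ * η1))))) := by
      apply Tendsto.mono_left _ nhdsWithin_le_nhds
      apply Continuous.tendsto
      fun_prop
    simp only [mul_zero, zero_mul, Real.sqrt_zero, add_zero] at h1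
    have h2 : ∀ᶠ ε in 𝓝[>] (0:ℝ), 2 * ε + t * (2 * √(ε * (3 * CQ * η1))) < g / 2 :=
      h1.eventually_lt_const (by positivity)
    have h3 : ∀ᶠ ε in 𝓝[>] (0:ℝ), ε < -e / 2 :=
      Tendsto.eventually_lt_const (by linarith) (tendsto_nhdsWithin_of_tendsto_nhds tendsto_id)
    have h4 : ∀ᶠ ε in 𝓝[>] (0:ℝ), 0 < ε := self_mem_nhdsWithin
    obtain ⟨ε, e2, e3, e4⟩ := (h2.and (h3.and h4)).exists
    exact ⟨ε, e4, e3.le, e2.le⟩
  refine ⟨g / 2, by positivity, ?_⟩
  -- near minimiser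
  obtain ⟨u, hu, hnear⟩ : ∃ u, IsTest c.Ω u ∧ energyOf c.Ω (load α c.p) m c.lim u ≤ e + ε := by
    have h1 : energy c.Ω (load α c.p) m c.lim < ((e + ε : ℝ) : EReal) := by
      rw [hE]
      exact EReal.coe_lt_coe_iff.2 (by linarith)
    rw [energy, iInf_lt_iff] at h1
    obtain ⟨u, hu⟩ := h1
    rw [iInf_lt_iff] at hu
    obtain ⟨hu1, hu2⟩ := hu
    exact ⟨u, hu1, (EReal.coe_lt_coe_iff.1 hu2).le⟩
  obtain ⟨hA0, hA1⟩ := c.A_bounds hα hu hm he (hnear.trans (by linarith))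
  set A := c.A u with hA
  have hApos : 0 < A := lt_of_lt_of_le hη0' hA0
  set δ : ℝ := A / 1024 with hδ
  have hδ' : 0 < δ := by positivity
  intro F S H
  -- the eventual estimates
  have hβ := H.tendsto_β hu
  have hρ := H.tendsto_ρ hu
  have hτ := H.tendsto_τ hu
  have hdir := H.tendsto_dir hu
  have hmass := H.tendsto_mass
  rw [← hA] at hβ
  have ev1 : ∀ᶠ n in F, 4 * c.β (S n) u + 2 * δ < 3 * A := by
    have : Tendsto (fun n => 4 * c.β (S n) u + 2 * δ) F (𝓝 (4 * (1 / 2 * A) + 2 * δ)) :=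
      (hβ.const_mul 4).add_const _
    apply this.eventually_lt_const
    rw [hδ]; linarith
  have ev2 : ∀ᶠ n in F, (μH[1] (S n)).toReal < 2 * c.l := by
    apply hmass.eventually_lt_const
    linarith
  have ev3 : ∀ᶠ n in F, dir (μH[1].restrict (S n)) u < dir c.lim u + 2 * ε / m := by
    apply hdir.eventually_lt_const
    have : 0 < 2 * ε / m := by positivity
    linarith
  have ev4 : ∀ᶠ n in F, - c.β (S n) u / 2 + √(c.β (S n) u) * √δ + √A * √δ
          + √(c.ρ (S n) u) * √(4 * c.β (S n) u + 2 * δ)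
          + √(c.R * (4 * c.β (S n) u + 2 * δ)) * c.τ (S n) u < - A / 8 := by
    have t1 : Tendsto (fun n => √(c.β (S n) u)) F (𝓝 √(1 / 2 * A)) :=
      (Real.continuous_sqrt.tendsto _).comp hβ
    have t2 : Tendsto (fun n => √(c.ρ (S n) u)) F (𝓝 √0) :=
      (Real.continuous_sqrt.tendsto _).comp hρ
    have t3 : Tendsto (fun n => 4 * c.β (S n) u + 2 * δ) F (𝓝 (4 * (1 / 2 * A) + 2 * δ)) :=
      (hβ.const_mul 4).add_const _
    have t4 : Tendsto (fun n => √(4 * c.β (S n) u + 2 * δ)) F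
        (𝓝 √(4 * (1 / 2 * A) + 2 * δ)) := (Real.continuous_sqrt.tendsto _).comp t3
    have t5 : Tendsto (fun n => √(c.R * (4 * c.β (S n) u + 2 * δ))) F
        (𝓝 √(c.R * (4 * (1 / 2 * A) + 2 * δ))) :=
      (Real.continuous_sqrt.tendsto _).comp (t3.const_mul c.R)
    have t6 : Tendsto (fun n => - c.β (S n) u / 2 + √(c.β (S n) u) * √δ + √A * √δ
          + √(c.ρ (S n) u) * √(4 * c.β (S n) u + 2 * δ)
          + √(c.R * (4 * c.β (S n) u + 2 * δ)) * c.τ (S n) u) F
        (𝓝 (- (1 / 2 * A) / 2 + √(1 / 2 * A) * √δ + √A * √δ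
          + √0 * √(4 * (1 / 2 * A) + 2 * δ)
          + √(c.R * (4 * (1 / 2 * A) + 2 * δ)) * 0)) := by
      refine Tendsto.add (Tendsto.add (Tendsto.add (Tendsto.add ?_ ?_) ?_) ?_) ?_
      · exact (hβ.neg).div_const 2
      · exact t1.mul_const _
      · exact tendsto_const_nhds
      · exact t2.mul t4
      · exact t5.mul hτ
    apply t6.eventually_lt_const
    rw [Real.sqrt_zero, zero_mul, mul_zero, add_zero, add_zero]
    have s1 : √(1 / 2 * A) ≤ √A := Real.sqrt_le_sqrt (by linarith)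
    have s2 : √A * √δ = A / 32 := by
      rw [← Real.sqrt_mul hApos.le, hδ, show A * (A / 1024) = (A / 32) ^ 2 by ring]
      exact Real.sqrt_sq (by positivity)
    have s3 : √(1 / 2 * A) * √δ ≤ A / 32 := by
      rw [← s2]
      exact mul_le_mul_of_nonneg_right s1 (Real.sqrt_nonneg _)
    rw [s2]
    linarith
  filter_upwards [H.meas, H.sub, H.fin, ev1, ev2, ev3, ev4] with n n1 n2 n3 n4 n5 n6 n7
  obtain ⟨φ, hφ, p1, p2, p3, p4⟩ := c.cut_estimate n1 n2 n3 hu hδ'
  have hfinS : IsFiniteMeasure ((μH[1] : Measure Plane).restrict (S n)) := ⟨by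
    rw [Measure.restrict_apply_univ]; exact n3.lt_top⟩
  rw [← hA] at p4
  set K := 4 * c.β (S n) u + 2 * δ with hK
  have hK0 : 0 ≤ K := by
    have : 0 ≤ c.β (S n) u := integral_nonneg fun _ => sq_nonneg _
    positivity
  -- quadratic parts
  have q1 : qf m (μH[1].restrict (S n)) φ ≤ 3 * CQ * A := by
    have a1 : dir (μH[1].restrict (S n)) φ ≤ c2 * K := by
      refine p2.trans (mul_le_mul_of_nonneg_right ?_ hK0)
      rw [hc2]
      have : 2 * c.R * c.B ^ 2 * (μH[1] (S n)).toReal ≤ 2 * c.R * c.B ^ 2 * (2 * c.l) := by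
        gcongr
      linarith
    calc qf m (μH[1].restrict (S n)) φ ≤ 1 / 2 * (c1 * K) + m / 2 * (c2 * K) := by
          unfold qf; gcongr
      _ = CQ * K := by rw [hCQ]; ring
      _ ≤ CQ * (3 * A) := by gcongr
      _ = _ := by ring
  have q2 : qf m c.lim φ ≤ 3 * CQ * A := by
    have a1 : dir c.lim φ ≤ c2 * K := by
      rw [c.dir_lim]
      nlinarith
    calc qf m c.lim φ ≤ 1 / 2 * (c1 * K) + m / 2 * (c2 * K) := by
          unfold qf; gcongr
      _ = CQ * K := by rw [hCQ]; ring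
      _ ≤ CQ * (3 * A) := by gcongr
      _ = _ := by ring
  have f1 : c.fv α m u φ ≤ 2 * √(ε * (3 * CQ * η1)) := by
    refine (le_abs_self _).trans ((c.abs_fv_le hu hφ hmin hnear).trans ?_)
    gcongr
    exact q2.trans (by gcongr)
  have hen : energyOf c.Ω (load α c.p) m (μH[1].restrict (S n)) (u + t • φ) ≤ e - g / 2 := by
    rw [energyOf_add_smul c.isOpen.measurableSet hu hφ]
    have r1 : energyOf c.Ω (load α c.p) m (μH[1].restrict (S n)) u ≤ e + 2 * ε := by
      rw [energyOf_eq c.isOpen.measurableSet hu] at hnear ⊢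
      have : m / 2 * dir (μH[1].restrict (S n)) u ≤ m / 2 * (dir c.lim u + 2 * ε / m) := by
        gcongr
      have h2 : m / 2 * (2 * ε / m) = ε := by field_simp
      linarith
    have r2 : bil volume u φ + m * bil (μH[1].restrict (S n)) u φ - (∫ z, φ z ∂α - φ c.p)
        ≤ 2 * √(ε * (3 * CQ * η1)) - m * A / 8 := by
      have h3 : bil volume u φ + m * bil (μH[1].restrict (S n)) u φ - (∫ z, φ z ∂α - φ c.p)
          = c.fv α m u φ + m * (bil (μH[1].restrict (S n)) u φ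
            - 3 / 2 * bil (μH[1].restrict (seg c.p e0 c.l)) u φ) := by
        rw [fv, c.bil_lim]
        ring
      have h4 : m * (bil (μH[1].restrict (S n)) u φ
            - 3 / 2 * bil (μH[1].restrict (seg c.p e0 c.l)) u φ) ≤ m * (- A / 8) :=
        mul_le_mul_of_nonneg_left (p4.trans n7.le) hm.le
      rw [h3]
      linarith
    have r3 : 1 / 2 * dir volume φ + m / 2 * dir (μH[1].restrict (S n)) φ ≤ 3 * CQ * A := q1
    have r4 : t * (bil volume u φ + m * bil (μH[1].restrict (S n)) u φ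
        - (∫ z, φ z ∂α - φ c.p)) ≤ t * (2 * √(ε * (3 * CQ * η1)) - m * A / 8) :=
      mul_le_mul_of_nonneg_left r2 ht'.le
    have r5 : t ^ 2 * (1 / 2 * dir volume φ + m / 2 * dir (μH[1].restrict (S n)) φ)
        ≤ t ^ 2 * (3 * CQ * A) := mul_le_mul_of_nonneg_left r3 (sq_nonneg _)
    have r6 : - (t * (m * A / 8)) + t ^ 2 * (3 * CQ * A) = - (m ^ 2 * A / (768 * CQ)) := by
      rw [ht]
      field_simp
      ring
    have r7 : g ≤ m ^ 2 * A / (768 * CQ) := by
      rw [hg]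
      gcongr
    nlinarith
  have hfin : energy c.Ω (load α c.p) m (μH[1].restrict (S n))
      ≤ (energyOf c.Ω (load α c.p) m (μH[1].restrict (S n)) (u + t • φ) : EReal) :=
    iInf₂_le _ (hu.add_smul hφ t)
  exact hfin.trans (EReal.coe_le_coe_iff.2 hen)

end Cfg

end Pool.Agent.Lib.MP_3f57e5_an
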