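import Mathlib
import Pool.Agent.Lib.MP_3f57e5_an.Atoms
import Pool.Agent.Lib.MP_3f57e5_an.Gap

/-!
# The energy of the limit measure is a negative real number
-/

open MeasureTheory Set Filter Topology Metric
open scoped ContDiff ENNReal

namespace Pool.Agent.Lib.MP_3f57e5_an

namespace Cfg

variable (c : Cfg) {α : Measure Plane} [IsProbabilityMeasure α]

theorem ray_zero : ray c.p e0 0 = c.p := by simp [ray]

theorem p_mem_seg : c.p ∈ seg c.p e0 c.l := ⟨0, ⟨le_refl _, c.l_pos.le⟩, c.ray_zero⟩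

/-- the test function `(x₀ - p₀) χ` -/
noncomputable def lin (z : Plane) : ℝ := xc c.p z * c.χ z

theorem isTest_lin : IsTest c.Ω c.lin := by
  refine ⟨(contDiff_xc c.p).mul c.test.1, c.test.2.1.mul_left, ?_⟩
  refine (closure_mono ?_).trans c.test.2.2
  intro z hz
  rw [Function.mem_support] at hz ⊢
  intro h0
  apply hz
  rw [lin, h0, mul_zero]

theorem lin_p : c.lin c.p = 0 := by simp [lin, xc]

theorem lin_nonneg {z : Plane} (hz : z ∈ seg c.p e0 c.l) : 0 ≤ c.lin z := by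
  obtain ⟨x, hx, rfl⟩ := hz
  rw [lin, c.χ_one _ (mem_image_of_mem _ hx), xc_ray, mul_one]
  exact hx.1

theorem integral_lin_pos (hα : α (seg c.p e0 c.l)ᶜ = 0)
    (hd : ∀ U : Set Plane, IsOpen U → (U ∩ seg c.p e0 c.l).Nonempty →
        ∃ z ∈ U ∩ seg c.p e0 c.l, α {z} ≠ 0) : 0 < ∫ z, c.lin z ∂α := by
  have hae : ∀ᵐ z ∂α, z ∈ seg c.p e0 c.l := hα
  have h0 : 0 ≤ᵐ[α] c.lin := by
    filter_upwards [hae] with z hz
    exact c.lin_nonneg hz
  rw [integral_pos_iff_support_of_nonneg_ae h0 c.isTest_lin.integrable]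
  obtain ⟨z, ⟨hzU, hz⟩, hαz⟩ := hd {z | 0 < xc c.p z}
    (isOpen_lt continuous_const (continuous_xc c.p))
    ⟨ray c.p e0 c.l, by simpa using c.l_pos, mem_image_of_mem _ ⟨c.l_pos.le, le_refl _⟩⟩
  refine lt_of_lt_of_le (pos_iff_ne_zero.2 hαz) (measure_mono ?_)
  rintro y rfl
  rw [Function.mem_support, lin, c.χ_one _ hz, mul_one]
  exact ne_of_gt hzU

/-- The energy of the limit measure is a negative real. -/
theorem energy_lim (hα : α (seg c.p e0 c.l)ᶜ = 0)
    (hd : ∀ U : Set Plane, IsOpen U → (U ∩ seg c.p e0 c.l).Nonempty →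
        ∃ z ∈ U ∩ seg c.p e0 c.l, α {z} ≠ 0) {m : ℝ} (hm : 0 < m) :
    ∃ e : ℝ, e < 0 ∧ energy c.Ω (load α c.p) m c.lim = (e : EReal) := by
  have hlim := c.isFiniteMeasure_lim
  have h1 : ((-(c.l / (3 * m)) : ℝ) : EReal) ≤ energy c.Ω (load α c.p) m c.lim :=
    le_iInf₂ fun u hu => EReal.coe_le_coe_iff.2 (c.energyOf_lim_ge' hα hu hm)
  have h2 : ∃ b : ℝ, b < 0 ∧ energy c.Ω (load α c.p) m c.lim ≤ (b : EReal) := by
    set I := ∫ z, c.lin z ∂α with hI
    have hIpos : 0 < I := c.integral_lin_pos hα hd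
    set Q := qf m c.lim c.lin with hQ
    have hQ0 : 0 ≤ Q := by
      have := dir_nonneg volume c.lin
      have := dir_nonneg c.lim c.lin
      unfold qf at hQ
      rw [hQ]
      positivity
    set s := I / (2 * (Q + 1)) with hs
    have hs0 : 0 < s := by positivity
    have h3 : energyOf c.Ω (load α c.p) m c.lim (0 + s • c.lin) = - (s * I) + s ^ 2 * Q := by
      rw [energyOf_add_smul c.isOpen.measurableSet (IsTest.zero _) c.isTest_lin,
        energyOf_eq c.isOpen.measurableSet (IsTest.zero _)]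
      have g0 : ∀ z, gradient (0 : Plane → ℝ) z = 0 := fun z => gradient_const z (0:ℝ)
      have d0 : ∀ ν : Measure Plane, dir ν (0 : Plane → ℝ) = 0 := by
        intro ν
        unfold dir
        simp_rw [g0]
        simp
      have b0 : ∀ ν : Measure Plane, bil ν (0 : Plane → ℝ) c.lin = 0 := by
        intro ν
        unfold bil
        simp_rw [g0]
        simp
      rw [d0, d0, b0, b0, c.lin_p, ← hI, hQ, qf]
      simp
    refine ⟨- (s * I) + s ^ 2 * Q, ?_, ?_⟩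
    · have h4 : s * Q < I := by
        rw [hs, div_mul_eq_mul_div, div_lt_iff₀ (by positivity)]
        nlinarith
      nlinarith
    · rw [← h3]
      exact iInf₂_le _ ((IsTest.zero _).add_smul c.isTest_lin s)
  obtain ⟨b, hb, h2⟩ := h2
  refine ⟨(energy c.Ω (load α c.p) m c.lim).toReal, ?_, ?_⟩
  · have hbot : energy c.Ω (load α c.p) m c.lim ≠ ⊥ := by
      intro h
      rw [h] at h1
      exact absurd h1 (by simp)
    have htop : energy c.Ω (load α c.p) m c.lim ≠ ⊤ := by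
      intro h
      rw [h] at h2
      exact absurd h2 (by simp)
    have h3 : (((energy c.Ω (load α c.p) m c.lim).toReal : ℝ) : EReal) ≤ (b : EReal) := by
      rwa [EReal.coe_toReal htop hbot]
    exact lt_of_le_of_lt (EReal.coe_le_coe_iff.1 h3) hb
  · have hbot : energy c.Ω (load α c.p) m c.lim ≠ ⊥ := by
      intro h
      rw [h] at h1
      exact absurd h1 (by simp)
    have htop : energy c.Ω (load α c.p) m c.lim ≠ ⊤ := by
      intro h
      rw [h] at h2
      exact absurd h2 (by simp)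
    exact (EReal.coe_toReal htop hbot).symm

/-- The segment itself is a network of finite energy. -/
theorem energy_seg_ne_bot (hα : α (seg c.p e0 c.l)ᶜ = 0) {m : ℝ} (hm : 0 < m) :
    energy c.Ω (load α c.p) m (μH[1].restrict (seg c.p e0 c.l)) ≠ ⊥ := by
  have h1 : ((-(c.l / (3 * (2 / 3 * m))) : ℝ) : EReal)
      ≤ energy c.Ω (load α c.p) m (μH[1].restrict (seg c.p e0 c.l)) := by
    refine le_iInf₂ fun u hu => EReal.coe_le_coe_iff.2 ?_
    have h2 := c.energyOf_lim_ge' hα hu (m := 2 / 3 * m) (by positivity)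
    rw [energyOf_eq c.isOpen.measurableSet hu, c.dir_lim] at h2
    rw [energyOf_eq c.isOpen.measurableSet hu]
    refine h2.trans (le_of_eq ?_)
    ring
  intro h
  rw [h] at h1
  exact absurd h1 (by simp)

/-- A closed (or relatively closed) network that does not contain the segment has energy `-∞`. -/
theorem energy_eq_bot_of_not_subset
    (hd : ∀ U : Set Plane, IsOpen U → (U ∩ seg c.p e0 c.l).Nonempty →
        ∃ z ∈ U ∩ seg c.p e0 c.l, α {z} ≠ 0) {m : ℝ} {S C : Set Plane} (hC : IsClosed C)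
    (hS : S = C ∩ c.Ω) (hns : ¬ seg c.p e0 c.l ⊆ S) :
    energy c.Ω (load α c.p) m (μH[1].restrict S) = ⊥ := by
  obtain ⟨z0, hz0, hz0S⟩ := not_subset.1 hns
  have hV : IsOpen (Cᶜ ∩ c.Ω) := hC.isOpen_compl.inter c.isOpen
  have hz0V : z0 ∈ Cᶜ ∩ c.Ω := by
    refine ⟨fun h => hz0S ?_, c.seg_sub hz0⟩
    rw [hS]
    exact ⟨h, c.seg_sub hz0⟩
  -- a point different from `p`
  have hU : IsOpen ((Cᶜ ∩ c.Ω) ∩ {c.p}ᶜ) := hV.inter isClosed_singleton.isOpen_compl
  have hne : (((Cᶜ ∩ c.Ω) ∩ {c.p}ᶜ) ∩ seg c.p e0 c.l).Nonempty := by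
    by_cases hp : z0 = c.p
    · have hcont : ContinuousAt (fun s : ℝ => ray c.p e0 s) 0 := (continuous_ray _ _).continuousAt
      have hnb : (Cᶜ ∩ c.Ω) ∈ 𝓝 (ray c.p e0 0) := by
        rw [c.ray_zero, ← hp]
        exact hV.mem_nhds hz0V
      have hev : ∀ᶠ s in 𝓝 (0:ℝ), ray c.p e0 s ∈ Cᶜ ∩ c.Ω := hcont hnb
      have hev2 : ∀ᶠ s in 𝓝[>] (0:ℝ), ray c.p e0 s ∈ Cᶜ ∩ c.Ω := hev.filter_mono
        nhdsWithin_le_nhds
      have hev3 : ∀ᶠ s in 𝓝[>] (0:ℝ), s < c.l :=
        Tendsto.eventually_lt_const c.l_pos (tendsto_nhdsWithin_of_tendsto_nhds tendsto_id)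
      have hev4 : ∀ᶠ s in 𝓝[>] (0:ℝ), 0 < s := self_mem_nhdsWithin
      obtain ⟨s, h1, h2, h3⟩ := (hev2.and (hev3.and hev4)).exists
      refine ⟨ray c.p e0 s, ⟨h1, ?_⟩, mem_image_of_mem _ ⟨h3.le, h2.le⟩⟩
      intro h
      rw [mem_singleton_iff] at h
      have := congrArg (xc c.p) h
      rw [xc_ray] at this
      simp [xc] at this
      exact h3.ne' this
    · exact ⟨z0, ⟨hz0V, hp⟩, hz0⟩
  obtain ⟨x, ⟨hx, _⟩, hαx⟩ := hd _ hU hne
  refine energy_eq_bot c.isOpen.measurableSet hU (fun z hz => hz.1.2) (fun h => h.2 rfl) ?_ hx hαx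
  rw [Measure.restrict_apply hU.measurableSet]
  have : (Cᶜ ∩ c.Ω) ∩ {c.p}ᶜ ∩ S = ∅ := by
    rw [hS]
    ext z
    simp only [mem_inter_iff, mem_compl_iff, mem_empty_iff_false, iff_false]
    tauto
  rw [this]
  simp

end Cfg

end Pool.Agent.Lib.MP_3f57e5_an
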