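import Mathlib
import Pool.Agent.Lib.MP_3f57e5_an.Finite
import Pool.Agent.Lib.MP_3f57e5_an.Comb

/-!
# Assembly
-/

open MeasureTheory Set Filter Topology Metric
open scoped ContDiff ENNReal BoundedContinuousFunction

namespace Pool.Agent.Lib.MP_3f57e5_an

/-- Geometric data exist in every nonempty bounded open set. -/
theorem exists_cfg {Ω : Set Plane} (hΩ : IsOpen Ω) (hb : Bornology.IsBounded Ω)
    (hne : Ω.Nonempty) {L : ℝ} (hL : 0 < L) :
    ∃ c : Cfg, c.Ω = Ω ∧ 3 / 2 * c.l ≤ L ∧ closedBall c.p (3 / 2 * c.l) ⊆ Ω := by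
  obtain ⟨p, hp⟩ := hne
  obtain ⟨r, hr, hball⟩ := Metric.isOpen_iff.1 hΩ p hp
  set l : ℝ := min (r / 2) (2 / 3 * L) with hl
  have hl0 : 0 < l := lt_min (by positivity) (by positivity)
  have hlr : l ≤ r / 2 := min_le_left _ _
  have hlL : l ≤ 2 / 3 * L := min_le_right _ _
  have hsegball : seg p e0 l ⊆ closedBall p (r / 2) := by
    rintro _ ⟨x, hx, rfl⟩
    rw [mem_closedBall, dist_eq_norm]
    have : ray p e0 x - p = x • e0 := by simp [ray]
    rw [this, norm_smul, norm_e0, mul_one, Real.norm_eq_abs, abs_of_nonneg hx.1]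
    exact hx.2.trans hlr
  let χb : ContDiffBump p := ⟨5 / 8 * r, 7 / 8 * r, by positivity, by linarith⟩
  let χ : Plane → ℝ := χb
  have hone : ∀ z ∈ ball p (5 / 8 * r), χ z = 1 := fun z hz =>
    χb.one_of_mem_closedBall (ball_subset_closedBall hz)
  have htest : IsTest Ω χ := by
    refine ⟨χb.contDiff, χb.hasCompactSupport, ?_⟩
    have h1 : tsupport χ = closedBall p (7 / 8 * r) := χb.tsupport_eq
    rw [h1]
    exact (closedBall_subset_ball (by linarith)).trans hball
  obtain ⟨B, hB⟩ := htest.hasCompactSupport_gradient.exists_bound_of_continuous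
    htest.continuous_gradient
  obtain ⟨R0, hR0⟩ := hb.subset_closedBall p
  obtain ⟨D, hD, hDle⟩ := map_volume_le p hb
  have hseg5 : seg p e0 l ⊆ ball p (5 / 8 * r) :=
    hsegball.trans (closedBall_subset_ball (by linarith))
  refine ⟨{ Ω := Ω, isOpen := hΩ, bdd := hb, p := p, l := l, l_pos := hl0, seg_sub := ?_,
            χ := χ, test := htest, χ_one := ?_, grad_χ := ?_, χ_le := ?_, B := B, grad_le := hB,
            R := max R0 0, R_nonneg := le_max_right _ _, xc_le := ?_, D := D, D_nonneg := hD,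
            map_le := hDle }, rfl, ?_, ?_⟩
  · exact hsegball.trans ((closedBall_subset_ball (by linarith)).trans hball)
  · exact fun z hz => hone z (hseg5 hz)
  · intro z hz
    have h1 : ∀ᶠ y in 𝓝 z, χ y = 1 := by
      filter_upwards [isOpen_ball.mem_nhds (hseg5 hz)] with y hy
      exact hone y hy
    have h3 : gradient χ z = gradient (fun _ : Plane => (1:ℝ)) z :=
      Filter.EventuallyEq.gradient_eq h1
    rw [h3, gradient_fun_const]
  · intro z
    rw [abs_of_nonneg χb.nonneg]
    exact χb.le_one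
  · intro z hz
    have h1 := hR0 hz
    rw [mem_closedBall] at h1
    have h2 := (lipschitz_xc p).dist_le_mul z p
    rw [NNReal.coe_one, one_mul, Real.dist_eq] at h2
    have h3 : xc p p = 0 := by simp [xc]
    rw [h3, sub_zero] at h2
    exact h2.trans (h1.trans (le_max_left _ _))
  · show 3 / 2 * l ≤ L
    linarith
  · show closedBall p (3 / 2 * l) ⊆ Ω
    exact (closedBall_subset_ball (by linarith)).trans hball

theorem main {Ω : Set Plane} (hΩ : IsOpen Ω) (hb : Bornology.IsBounded Ω)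
    (hne : Ω.Nonempty) {m L : ℝ} (hm : 0 < m) (hL : 0 < L) :
    ∃ (f : SignedMeasure Plane) (μ : FiniteMeasure Plane) (κ : ℝ), 0 < κ ∧
      (∃ S ∈ networks Ω L, energy Ω f m (μH[1].restrict S) ≠ ⊥) ∧
      μ ∈ relaxed Ω L ∧ energy Ω f m μ ≠ ⊥ ∧
      ∀ (S : ℕ → Set Plane) (ν : ℕ → FiniteMeasure Plane),
        (∀ n, S n ∈ relNetworks Ω L) → (∀ n, (ν n : Measure Plane) = μH[1].restrict (S n)) →
        Tendsto ν atTop (𝓝 μ) →
        (∀ᶠ n in atTop, energy Ω f m (μH[1].restrict (S n)) ≤ energy Ω f m μ - (κ : EReal)) ∧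
        ¬ Tendsto (fun n => energy Ω f m (μH[1].restrict (S n))) atTop
            (𝓝 (energy Ω f m μ)) := by
  obtain ⟨c, rfl, hcL, hcball⟩ := exists_cfg hΩ hb hne hL
  obtain ⟨α, hαp, hα, hd⟩ := exists_alpha c.p c.l_pos
  obtain ⟨e, he, hE⟩ := c.energy_lim hα hd hm
  obtain ⟨κ, hκ, hgap⟩ := c.gap hα hm he hE
  have hlimfin := c.isFiniteMeasure_lim
  have hsegfin := c.isFiniteMeasure_seg
  have hl := c.l_pos
  let μ : FiniteMeasure Plane := ⟨c.lim, hlimfin⟩
  refine ⟨load α c.p, μ, κ, hκ, ?_, ?_, ?_, ?_⟩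
  · refine ⟨seg c.p e0 c.l, ⟨c.seg_sub, (isCompact_seg _ _ _).isClosed,
      ⟨⟨c.p, c.p_mem_seg⟩, isPreconnected_seg _ _ _⟩, ?_⟩, c.energy_seg_ne_bot hα hm⟩
    rw [hausdorff_seg _ norm_e0]
    apply ENNReal.ofReal_le_ofReal
    linarith
  · -- the combs
    have hcombH : ∀ k : ℕ, (μH[1] : Measure Plane) (comb c.p c.l (k + 1) (k + 1))
        = ENNReal.ofReal (3 / 2 * c.l) := by
      intro k
      rw [hausdorff_comb c.p hl (Nat.succ_pos k) le_rfl]
      congr 1
      have : ((k + 1 : ℕ) : ℝ) ≠ 0 := by positivity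
      field_simp
      ring
    have hfin : ∀ k : ℕ, IsFiniteMeasure
        ((μH[1] : Measure Plane).restrict (comb c.p c.l (k + 1) (k + 1))) := fun k =>
      ⟨by rw [Measure.restrict_apply_univ, hcombH]; exact ENNReal.ofReal_lt_top⟩
    let ν : ℕ → FiniteMeasure Plane := fun k =>
      ⟨(μH[1] : Measure Plane).restrict (comb c.p c.l (k + 1) (k + 1)), hfin k⟩
    have ht : Tendsto ν atTop (𝓝 μ) := by
      rw [FiniteMeasure.tendsto_iff_forall_integral_tendsto]
      intro g
      have h1 := tendsto_integral_comb c.p hl g g.continuous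
      have h2 : 3 / 2 * ∫ x in Icc 0 c.l, g (ray c.p e0 x) = ∫ z, g z ∂(μ : Measure Plane) := by
        show _ = ∫ z, g z ∂c.lim
        rw [c.integral_lim, integral_seg _ norm_e0]
      rw [← h2]
      exact h1
    apply mem_closure_of_tendsto ht
    refine Eventually.of_forall fun k => ⟨comb c.p c.l (k + 1) (k + 1), ⟨?_, ?_, ?_, ?_⟩, rfl⟩
    · exact (comb_subset c.p hl (Nat.succ_pos k) le_rfl).trans hcball
    · exact (isCompact_comb _ _).isClosed
    · exact isConnected_comb c.p hl (Nat.succ_pos k) le_rfl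
    · rw [hcombH]
      exact ENNReal.ofReal_le_ofReal hcL
  · show energy c.Ω (load α c.p) m c.lim ≠ ⊥
    rw [hE]
    exact EReal.coe_ne_bot e
  · intro S ν hS hν ht
    have hcoe : (μ : Measure Plane) = c.lim := rfl
    rw [hcoe, hE]
    have hev : ∀ᶠ n in atTop, energy c.Ω (load α c.p) m (μH[1].restrict (S n))
        ≤ ((e - κ : ℝ) : EReal) := by
      have h1 : ∀ᶠ n in atTop ⊓ 𝓟 {n | seg c.p e0 c.l ⊆ S n},
          energy c.Ω (load α c.p) m (μH[1].restrict (S n)) ≤ ((e - κ : ℝ) : EReal) := by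
        apply hgap
        refine ⟨?_, ?_, ?_, ?_⟩
        · refine Eventually.of_forall fun n => ?_
          obtain ⟨C, hC, hSC⟩ := (hS n).2.1
          rw [hSC]
          exact hC.measurableSet.inter hΩ.measurableSet
        · rw [eventually_inf_principal]
          exact Eventually.of_forall fun n hn => hn
        · refine Eventually.of_forall fun n => ?_
          exact ((hS n).2.2.2.trans_lt ENNReal.ofReal_lt_top).ne
        · intro g
          have h2 := (FiniteMeasure.tendsto_iff_forall_integral_tendsto.1 ht g).mono_left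
            (inf_le_left : atTop ⊓ 𝓟 {n | seg c.p e0 c.l ⊆ S n} ≤ atTop)
          simp only [hν] at h2
          exact h2
      rw [eventually_inf_principal] at h1
      filter_upwards [h1] with n hn
      by_cases hsub : seg c.p e0 c.l ⊆ S n
      · exact hn hsub
      · obtain ⟨C, hC, hSC⟩ := (hS n).2.1
        rw [c.energy_eq_bot_of_not_subset hd hC hSC hsub]
        exact bot_le
    refine ⟨?_, ?_⟩
    · filter_upwards [hev] with n hn
      rw [← EReal.coe_sub]
      exact hn
    · intro hten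
      have h3 : ((e - κ : ℝ) : EReal) < (e : EReal) := EReal.coe_lt_coe_iff.2 (by linarith)
      have h4 := hten.eventually_const_lt h3
      obtain ⟨n, h5, h6⟩ := (hev.and h4).exists
      exact absurd h6 (not_lt.2 h5)

end Pool.Agent.Lib.MP_3f57e5_an
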